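import Pool.Agent.Lib.MP_387a85_ag.IN.Spec

/-!
# MP_387a85_ag, infinitely near points: assembly
-/

set_option autoImplicit false

namespace Pool.Agent.Lib.MP387a85.IN

open MvPolynomial

namespace ASMM

variable {K : Type} [Field K]

theorem exists_term (f : MvPolynomial (Fin 3) K) (i : Fin 3) (h : ¬ (X i) ∣ f) :
    ∃ a ∈ f.support, a i = 0 := by
  by_contra hcon
  push Not at hcon
  apply h
  rw [← support_sum_monomial_coeff f]
  apply Finset.dvd_sum
  intro a ha
  rw [X_dvd_monomial]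
  exact Or.inr (hcon a ha)

theorem hom_sum (f : MvPolynomial (Fin 3) K) (d : ℕ) (hf : f.IsHomogeneous d)
    (a : Fin 3 →₀ ℕ) (ha : a ∈ f.support) : ∑ i, a i = d := by
  have h := hf (mem_support_iff.1 ha)
  rw [Finsupp.weight_apply, Finsupp.sum_fintype] at h
  · simpa using h
  · intro i
    simp

theorem three (d p q r : ℤ) (hp : 0 ≤ p) (hq : 0 ≤ q) (hr : 0 ≤ r) (hp' : p ≤ d) (hq' : q ≤ d)
    (hr' : r ≤ d) : (d - r) * q + (d - p) * r + (d - q) * p ≤ d ^ 2 := by
  rcases (hp.trans hp').eq_or_lt with h0 | h0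
  · have h1 : p = 0 := by omega
    have h2 : q = 0 := by omega
    have h3 : r = 0 := by omega
    rw [← h0, h1, h2, h3]
    norm_num
  · have h : 0 ≤ d * (d ^ 2 - ((d - r) * q + (d - p) * r + (d - q) * p)) := by
      have e : d * (d ^ 2 - ((d - r) * q + (d - p) * r + (d - q) * p)) =
          (d - p) * (d - q) * (d - r) + p * q * r := by ring
      rw [e]
      have a1 : 0 ≤ d - p := by omega
      have a2 : 0 ≤ d - q := by omega
      have a3 : 0 ≤ d - r := by omega
      positivity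
    have := nonneg_of_mul_nonneg_right h h0
    linarith

end ASMM

open ASMM in
/-- The main inequality. -/
theorem main (hCHN : SpecCHN) (hCRN : SpecCRN) (hVTX : SpecVTX) (hGEN : SpecGEN) (hLIN : SpecLIN)
    (K : Type) [Field K] [CharZero K] (t d : ℕ) (ht : 2 ≤ t)
    (f : MvPolynomial (Fin 3) K) (hf : Irreducible f) (hd : f.IsHomogeneous d)
    (hcard : f.support.card ≤ t) (s : ℕ) (k : Fin s → Fin 3) (α β : Fin s → K)
    (hp : ∀ l l', l ≠ l' → ∀ c : K, pt (k l) (α l) (β l) ≠ c • pt (k l') (α l') (β l'))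
    (T : Fin s → Finset (List (Option K))) :
    ∑ l, ∑ w ∈ T l, multAt (loc f (k l) (α l) (β l)) w ^ 2 ≤
      d ^ 2 + (∑ l, (T l).card) * (t - 1) ^ 2 := by
  classical
  by_cases hX : ∃ i, X i ∣ f
  · obtain ⟨i, q, hq⟩ := hX
    have hu : IsUnit q := by
      rcases hf.isUnit_or_isUnit hq with h1 | h1
      · exact absurd h1 (X_prime (σ := Fin 3) (R := K) (i := i)).not_isUnit
      · exact h1
    rw [isUnit_iff_eq_C_of_isReduced] at hu
    obtain ⟨c, hc, rfl⟩ := hu
    have hf' : f = C c * X i := by rw [hq, mul_comm]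
    have h1 : ∀ l, ∀ w ∈ T l, multAt (loc f (k l) (α l) (β l)) w ^ 2 ≤ (t - 1) ^ 2 := by
      intro l w _
      obtain ⟨g1, g2⟩ := hLIN K c hc.ne_zero i (k l) (α l) (β l)
      rw [← hf'] at g1 g2
      have g3 := ((hCHN K _ g1).1 w).trans g2
      exact Nat.pow_le_pow_left (g3.trans (by omega)) 2
    calc ∑ l, ∑ w ∈ T l, multAt (loc f (k l) (α l) (β l)) w ^ 2
        ≤ ∑ l, ∑ _w ∈ T l, (t - 1) ^ 2 :=
          Finset.sum_le_sum fun l _ => Finset.sum_le_sum fun w hw => h1 l w hw
      _ = (∑ l, (T l).card) * (t - 1) ^ 2 := by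
          rw [Finset.sum_mul]
          exact Finset.sum_congr rfl fun l _ => by rw [Finset.sum_const, smul_eq_mul]
      _ ≤ _ := Nat.le_add_left _ _
  · push Not at hX
    choose S hS hS0 using fun i => exists_term f i (hX i)
    set c : Fin 3 → ℕ := fun j => S (j + 2) (j + 1) * S (j + 1) (j + 2) with hc
    have hloc : ∀ l, ∑ w ∈ T l, multAt (loc f (k l) (α l) (β l)) w ^ 2 ≤
        (T l).card * (t - 1) ^ 2 + if α l = 0 ∧ β l = 0 then c (k l) else 0 := by
      intro l
      by_cases h0 : α l = 0 ∧ β l = 0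
      · rw [if_pos h0, h0.1, h0.2]
        obtain ⟨g1, g2⟩ := hVTX K f d hd (k l)
        obtain ⟨e, he, he0, he1⟩ := g2 _ (hS (k l + 2))
        obtain ⟨e', he', he0', he1'⟩ := g2 _ (hS (k l + 1))
        rw [hS0] at he1 he0'
        have := hCRN K (loc f (k l) 0 0) _ _ t (T l) ⟨e, he, he0, he1⟩ ⟨e', he', he0', he1'⟩
          (g1.trans hcard)
        rw [add_comm]
        exact this
      · rw [if_neg h0, add_zero]
        have h0' : α l ≠ 0 ∨ β l ≠ 0 := by
          by_contra hcon
          push Not at hcon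
          exact h0 hcon
        obtain ⟨g1, g2⟩ := hGEN K f d hd hX (k l) (α l) (β l) h0'
        have h1 : ∀ w ∈ T l, multAt (loc f (k l) (α l) (β l)) w ^ 2 ≤ (t - 1) ^ 2 := by
          intro w _
          have g3 := (hCHN K _ g1).1 w
          exact Nat.pow_le_pow_left (by omega) 2
        calc ∑ w ∈ T l, multAt (loc f (k l) (α l) (β l)) w ^ 2 ≤ ∑ _w ∈ T l, (t - 1) ^ 2 :=
              Finset.sum_le_sum h1
          _ = (T l).card * (t - 1) ^ 2 := by rw [Finset.sum_const, smul_eq_mul]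
    have hvert : ∑ l, (if α l = 0 ∧ β l = 0 then c (k l) else 0) ≤ ∑ j, c j := by
      rw [← Finset.sum_filter]
      have hinj : Set.InjOn k ((Finset.univ.filter fun l => α l = 0 ∧ β l = 0 : Finset (Fin s)) :
          Set (Fin s)) := by
        intro l hl l' hl' he
        have g1 := (Finset.mem_filter.1 hl).2
        have g2 := (Finset.mem_filter.1 hl').2
        by_contra hne
        apply hp l l' hne 1
        rw [g1.1, g1.2, g2.1, g2.2, he, one_smul]
      rw [← Finset.sum_image (f := c) (s := Finset.univ.filter fun l => α l = 0 ∧ β l = 0)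
        (g := k) hinj]
      exact Finset.sum_le_sum_of_subset (Finset.subset_univ _)
    have hthree : ∑ j, c j ≤ d ^ 2 := by
      have a0 := hom_sum f d hd _ (hS 0)
      have a1 := hom_sum f d hd _ (hS 1)
      have a2 := hom_sum f d hd _ (hS 2)
      rw [Fin.sum_univ_three] at a0 a1 a2
      rw [hS0 0] at a0
      rw [hS0 1] at a1
      rw [hS0 2] at a2
      have key := three d (S 0 1) (S 1 2) (S 2 0) (by positivity) (by positivity) (by positivity)
        (by omega) (by omega) (by omega)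
      have b0 : ((S 0 2 : ℕ) : ℤ) = d - (S 0 1 : ℕ) := by omega
      have b1 : ((S 1 0 : ℕ) : ℤ) = d - (S 1 2 : ℕ) := by omega
      have b2 : ((S 2 1 : ℕ) : ℤ) = d - (S 2 0 : ℕ) := by omega
      have e : ((∑ j, c j : ℕ) : ℤ) ≤ (d : ℤ) ^ 2 := by
        rw [Fin.sum_univ_three, hc]
        have e0 : (0 : Fin 3) + 2 = 2 := rfl
        have e1 : (0 : Fin 3) + 1 = 1 := rfl
        have e2 : (1 : Fin 3) + 2 = 0 := rfl
        have e3 : (1 : Fin 3) + 1 = 2 := rfl
        have e4 : (2 : Fin 3) + 2 = 1 := rfl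
        have e5 : (2 : Fin 3) + 1 = 0 := rfl
        dsimp only
        rw [e0, e1, e2, e3, e4, e5]
        push_cast
        rw [b0, b1, b2]
        linarith
      exact_mod_cast e
    calc ∑ l, ∑ w ∈ T l, multAt (loc f (k l) (α l) (β l)) w ^ 2
        ≤ ∑ l, ((T l).card * (t - 1) ^ 2 + if α l = 0 ∧ β l = 0 then c (k l) else 0) :=
          Finset.sum_le_sum fun l _ => hloc l
      _ = (∑ l, (T l).card) * (t - 1) ^ 2 +
          ∑ l, (if α l = 0 ∧ β l = 0 then c (k l) else 0) := by
          rw [Finset.sum_add_distrib, Finset.sum_mul]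
      _ ≤ (∑ l, (T l).card) * (t - 1) ^ 2 + d ^ 2 := Nat.add_le_add_left (hvert.trans hthree) _
      _ = _ := add_comm _ _

end Pool.Agent.Lib.MP387a85.IN
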