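import Pool.Agent.Lib.MP_387a85_ag.IN.Spec2

/-!
# MP_387a85_ag, the curves `f(x) = g(y)`: assembly
-/

set_option autoImplicit false

namespace Pool.Agent.Lib.MP387a85.IN

open MvPolynomial

namespace ASM2M

variable {K : Type} [Field K]

theorem coeff_locA (F : MvPolynomial (Fin 2) K) (a b : K) :
    coeff 0 (locA F a b) = aeval ![a, b] F := by
  have e : (constantCoeff : MvPolynomial (Fin 2) K →+* K).comp
      (aeval ![(X 0 + C a : MvPolynomial (Fin 2) K), X 1 + C b] :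
        MvPolynomial (Fin 2) K →ₐ[K] MvPolynomial (Fin 2) K).toRingHom =
      (aeval ![a, b] : MvPolynomial (Fin 2) K →ₐ[K] K).toRingHom := by
    apply MvPolynomial.ringHom_ext
    · intro r
      simp
    · intro i
      fin_cases i <;> simp
  have h := RingHom.congr_fun e F
  rw [← constantCoeff_eq]
  exact h

theorem aeval_curve (f₁ f₂ g₁ g₂ : Polynomial K) (a b : K) :
    aeval ![a, b] (curve f₁ f₂ g₁ g₂) = f₁.eval a * g₂.eval b - f₂.eval a * g₁.eval b := by
  have h0 : ∀ f : Polynomial K, aeval ![a, b] (Polynomial.aeval (X 0 : MvPolynomial (Fin 2) K) f) =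
      f.eval a := by
    intro f
    rw [← Polynomial.aeval_algHom_apply, aeval_X]
    simp [Polynomial.aeval_def]
  have h1 : ∀ f : Polynomial K, aeval ![a, b] (Polynomial.aeval (X 1 : MvPolynomial (Fin 2) K) f) =
      f.eval b := by
    intro f
    rw [← Polynomial.aeval_algHom_apply, aeval_X]
    simp [Polynomial.aeval_def]
  rw [curve, map_sub, map_mul, map_mul, h0, h0, h1, h1]

open Classical in
/-- The value of the rational function `f₁ / f₂`. -/
noncomputable def val (f₁ f₂ : Polynomial K) (a : K) : Option K :=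
  if f₂.eval a = 0 then none else some (f₁.eval a / f₂.eval a)

theorem ne_of_coprime (f₁ f₂ : Polynomial K) (h : IsCoprime f₁ f₂) (a : K) :
    ¬ (f₁.eval a = 0 ∧ f₂.eval a = 0) := by
  rintro ⟨h1, h2⟩
  obtain ⟨u, v, huv⟩ := h
  have := congrArg (Polynomial.eval a) huv
  rw [Polynomial.eval_add, Polynomial.eval_mul, Polynomial.eval_mul, h1, h2] at this
  simp at this

theorem val_eq (f₁ f₂ g₁ g₂ : Polynomial K) (hf : IsCoprime f₁ f₂) (hg : IsCoprime g₁ g₂)
    (a b : K) (h : f₁.eval a * g₂.eval b = f₂.eval a * g₁.eval b) :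
    val f₁ f₂ a = val g₁ g₂ b := by
  have hf' := ne_of_coprime f₁ f₂ hf a
  have hg' := ne_of_coprime g₁ g₂ hg b
  by_cases h2 : f₂.eval a = 0
  · have h1 : f₁.eval a ≠ 0 := fun h0 => hf' ⟨h0, h2⟩
    have h3 : g₂.eval b = 0 := by
      rw [h2, zero_mul] at h
      exact (mul_eq_zero.1 h).resolve_left h1
    rw [val, val, if_pos h2, if_pos h3]
  · have h3 : g₂.eval b ≠ 0 := by
      intro h0
      rw [h0, mul_zero] at h
      have h4 := (mul_eq_zero.1 h.symm).resolve_left h2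
      exact hg' ⟨h4, h0⟩
    rw [val, val, if_neg h2, if_neg h3]
    congr 1
    field_simp
    rw [h]

theorem val_eq' (f₁ f₂ : Polynomial K) (a a' : K) (h : val f₁ f₂ a = val f₁ f₂ a') :
    f₁.eval a * f₂.eval a' = f₂.eval a * f₁.eval a' := by
  by_cases h2 : f₂.eval a = 0
  · by_cases h3 : f₂.eval a' = 0
    · rw [h2, h3]
      ring
    · rw [val, val, if_pos h2, if_neg h3] at h
      exact absurd h (by simp)
  · by_cases h3 : f₂.eval a' = 0
    · rw [val, val, if_neg h2, if_pos h3] at h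
      exact absurd h (by simp)
    · rw [val, val, if_neg h2, if_neg h3, Option.some_inj] at h
      rw [div_eq_div_iff h2 h3] at h
      rw [h]
      ring

end ASM2M

open ASM2M in
/-- The inequality for the curves `f(x) = g(y)`. -/
theorem main2 (hZR2 : SpecZR2) (hCR2 : SpecCR2) (hLK2 : SpecLK2) (hUA2 : SpecUA2) (hUB2 : SpecUB2)
    (hGI2 : SpecGI2) (K : Type) [Field K] [CharZero K] (f₁ f₂ g₁ g₂ : Polynomial K)
    (hf : IsCoprime f₁ f₂) (hg : IsCoprime g₁ g₂) (n m : ℕ)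
    (hn : n = max f₁.natDegree f₂.natDegree) (hm : m = max g₁.natDegree g₂.natDegree)
    (hn1 : 1 ≤ n) (hm1 : 1 ≤ m) (s : ℕ) (a b : Fin s → K)
    (hp : ∀ l l', l ≠ l' → a l ≠ a l' ∨ b l ≠ b l')
    (T : Fin s → Finset (List (Option K))) (r : ℕ) (hr : r = ∑ l, (T l).card) :
    -((r : ℤ) + ((s : ℤ) - 2) ^ 2) ≤ 2 * (n : ℤ) * m -
      ∑ l, ∑ w ∈ T l, (multAt (locA (curve f₁ f₂ g₁ g₂) (a l) (b l)) w : ℤ) ^ 2 := by
  classical
  have hn1' := hn1
  have hm1' := hm1
  rw [hn] at hn1'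
  rw [hm] at hm1'
  set E : Finset (Fin s) := Finset.univ.filter fun l =>
    f₁.eval (a l) * g₂.eval (b l) = f₂.eval (a l) * g₁.eval (b l) with hE
  set L : Finset (K × K) := E.image fun l => (a l, b l) with hL
  set α : K → ℕ := ram f₁ f₂ with hα
  set β : K → ℕ := ram g₁ g₂ with hβ
  have hinj : Set.InjOn (fun l => (a l, b l)) (E : Set (Fin s)) := by
    intro l _ l' _ he
    by_contra hne
    rcases hp l l' hne with h | h
    · exact h (congrArg Prod.fst he)
    · exact h (congrArg Prod.snd he)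
  have hcardL : L.card ≤ s := by
    refine Finset.card_image_le.trans ?_
    refine (Finset.card_le_univ E).trans ?_
    rw [Fintype.card_fin]
  have hLE : ∀ l ∈ L, f₁.eval l.1 * g₂.eval l.2 = f₂.eval l.1 * g₁.eval l.2 := by
    intro l hl
    obtain ⟨i, hi, rfl⟩ := Finset.mem_image.1 hl
    exact (Finset.mem_filter.1 hi).2
  -- the points one by one
  have hloc : ∀ l, (∑ w ∈ T l, (multAt (locA (curve f₁ f₂ g₁ g₂) (a l) (b l)) w : ℤ) ^ 2) ≤
      (T l).card + if l ∈ E then (α (a l) : ℤ) * β (b l) else 0 := by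
    intro l
    by_cases hl : l ∈ E
    · rw [if_pos hl]
      have hl' := (Finset.mem_filter.1 hl).2
      obtain ⟨h1, h2, U, W, hU, hW, e⟩ := hLK2 K f₁ f₂ g₁ g₂ hf hg hn1' hm1' (a l) (b l) hl'
      have h3 := hCR2 K U W _ _ hU hW h1 h2 (T l)
      rw [← e] at h3
      have h4 : ((∑ w ∈ T l, multAt (locA (curve f₁ f₂ g₁ g₂) (a l) (b l)) w ^ 2 : ℕ) : ℤ) ≤
          ((ram f₁ f₂ (a l) * ram g₁ g₂ (b l) + (T l).card : ℕ) : ℤ) := by exact_mod_cast h3
      push_cast at h4
      linarith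
    · rw [if_neg hl, add_zero]
      have hl' : coeff 0 (locA (curve f₁ f₂ g₁ g₂) (a l) (b l)) ≠ 0 := by
        rw [coeff_locA, aeval_curve]
        intro h0
        exact hl (Finset.mem_filter.2 ⟨Finset.mem_univ _, sub_eq_zero.1 h0⟩)
      rw [Finset.sum_eq_zero]
      · positivity
      · intro w _
        rw [hZR2 K _ hl' w]
        norm_num
  have hsumL : ∑ l, (if l ∈ E then (α (a l) : ℤ) * β (b l) else 0) =
      ∑ x ∈ L, (α x.1 : ℤ) * β x.2 := by
    rw [Finset.sum_ite_mem, Finset.univ_inter, hL, Finset.sum_image hinj]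
  -- the conditions of the counting inequality
  have hA1 : ∀ x ∈ L.image Prod.fst, 1 ≤ α x := by
    intro x hx
    obtain ⟨l, hl, rfl⟩ := Finset.mem_image.1 hx
    exact (hLK2 K f₁ f₂ g₁ g₂ hf hg hn1' hm1' l.1 l.2 (hLE l hl)).1
  have hB1 : ∀ x ∈ L.image Prod.snd, 1 ≤ β x := by
    intro x hx
    obtain ⟨l, hl, rfl⟩ := Finset.mem_image.1 hx
    exact (hLK2 K f₁ f₂ g₁ g₂ hf hg hn1' hm1' l.1 l.2 (hLE l hl)).2.1
  have hfib1 : ∀ v, ∑ x ∈ (L.image Prod.fst).filter (fun x => val f₁ f₂ x = v), α x ≤ n := by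
    intro v
    rw [hn]
    apply hUA2 K f₁ f₂ hf hn1'
    intro x hx y hy
    exact val_eq' f₁ f₂ x y
      ((Finset.mem_filter.1 hx).2.trans (Finset.mem_filter.1 hy).2.symm)
  have hfib2 : ∀ v, ∑ x ∈ (L.image Prod.snd).filter (fun x => val g₁ g₂ x = v), β x ≤ m := by
    intro v
    rw [hm]
    apply hUA2 K g₁ g₂ hg hm1'
    intro x hx y hy
    exact val_eq' g₁ g₂ x y
      ((Finset.mem_filter.1 hx).2.trans (Finset.mem_filter.1 hy).2.symm)
  have htot : ∀ (S : Finset K) (γ : K → ℕ) (N : ℕ), 1 ≤ N → (∀ x ∈ S, 1 ≤ γ x) →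
      ∑ x ∈ S, (γ x - 1) ≤ 2 * N - 2 → ∑ x ∈ S, γ x + 2 ≤ 2 * N + S.card := by
    intro S γ N hN h1 h2
    have h3 : ∑ x ∈ S, γ x = ∑ x ∈ S, (γ x - 1) + S.card := by
      rw [Finset.card_eq_sum_ones, ← Finset.sum_add_distrib]
      exact Finset.sum_congr rfl fun x hx => by have := h1 x hx; omega
    omega
  have hsum1 := htot _ α n hn1 hA1 (by rw [hn]; exact hUB2 K f₁ f₂ hf hn1' _)
  have hsum2 := htot _ β m hm1 hB1 (by rw [hm]; exact hUB2 K g₁ g₂ hg hm1' _)
  have hcount : ∑ x ∈ L, (α x.1 : ℤ) * β x.2 ≤ 2 * n * m + ((s : ℤ) - 2) ^ 2 := by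
    by_cases h2 : 2 ≤ L.card
    · have h3 := hGI2 K K (Option K) L (val f₁ f₂) (val g₁ g₂) α β n m hn1 hm1
        (fun l hl => val_eq f₁ f₂ g₁ g₂ hf hg l.1 l.2 (hLE l hl)) hfib1 hfib2 hsum1 hsum2
      have h4 : ((L.card : ℤ) - 2) ^ 2 ≤ ((s : ℤ) - 2) ^ 2 := by
        have h5 : (2 : ℤ) ≤ L.card := by exact_mod_cast h2
        have h6 : (L.card : ℤ) ≤ s := by exact_mod_cast hcardL
        nlinarith
      linarith
    · have hsq : 0 ≤ ((s : ℤ) - 2) ^ 2 := sq_nonneg _
      have hnm : (0 : ℤ) ≤ (n : ℤ) * m := by positivity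
      rcases Nat.lt_or_ge L.card 1 with h3 | h3
      · have h4 : L = ∅ := Finset.card_eq_zero.1 (by omega)
        rw [h4, Finset.sum_empty]
        nlinarith
      · obtain ⟨x, hx⟩ := Finset.card_eq_one.1 (show L.card = 1 by omega)
        have hxL : x ∈ L := by rw [hx]; exact Finset.mem_singleton_self x
        have h5 : α x.1 ≤ n := by
          refine le_trans ?_ (hfib1 (val f₁ f₂ x.1))
          exact Finset.single_le_sum (f := α) (fun _ _ => Nat.zero_le _)
            (Finset.mem_filter.2 ⟨Finset.mem_image_of_mem _ hxL, rfl⟩)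
        have h6 : β x.2 ≤ m := by
          refine le_trans ?_ (hfib2 (val g₁ g₂ x.2))
          exact Finset.single_le_sum (f := β) (fun _ _ => Nat.zero_le _)
            (Finset.mem_filter.2 ⟨Finset.mem_image_of_mem _ hxL, rfl⟩)
        have h7 : (α x.1 : ℤ) * β x.2 ≤ n * m := by
          exact_mod_cast Nat.mul_le_mul h5 h6
        rw [hx, Finset.sum_singleton]
        nlinarith
  have hfinal : (∑ l, ∑ w ∈ T l, (multAt (locA (curve f₁ f₂ g₁ g₂) (a l) (b l)) w : ℤ) ^ 2) ≤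
      (r : ℤ) + (2 * n * m + ((s : ℤ) - 2) ^ 2) := by
    refine (Finset.sum_le_sum fun l _ => hloc l).trans ?_
    rw [Finset.sum_add_distrib, hsumL, hr]
    push_cast
    linarith
  linarith

end Pool.Agent.Lib.MP387a85.IN
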