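import Pool.Agent.Lib.MP_387a85_ag.IN.Spec2

/-!
# MP_387a85_ag, hive IN: module CH2

The multiplicities of `x ^ A U + y ^ B W` at the infinitely near points outside the toric words are
at most `1`.
-/

set_option autoImplicit false

namespace Pool.Agent.Lib.MP387a85.IN

open MvPolynomial

namespace CH2M

theorem coeff_zero_aux {K : Type} [Field K] (U W : MvPolynomial (Fin 2) K) (a b : ℕ)
    (ha : 1 ≤ a) (c : K) (hc : c ≠ 0) (hW : coeff 0 W ≠ 0) :
    coeff 0 (X 0 ^ a * U + (X 1 + C c) ^ b * W) ≠ 0 := by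
  have h1 : coeff 0 (X 0 ^ a * U + (X 1 + C c) ^ b * W) = c ^ b * coeff 0 W := by
    rw [← constantCoeff_eq]
    simp only [map_add, map_mul, map_pow, constantCoeff_X, constantCoeff_C]
    rw [zero_pow (by omega)]
    ring
  rw [h1]
  exact mul_ne_zero (pow_ne_zero _ hc) hW

theorem main (hCHN : SpecCHN) (hZR : SpecZR2) (hSTR : SpecSTR2) {K : Type} [Field K] [CharZero K]
    (w : List (Option K)) : ∀ (U W : MvPolynomial (Fin 2) K) (A B : ℕ), coeff 0 U ≠ 0 →
    coeff 0 W ≠ 0 → 1 ≤ A → 1 ≤ B → (∀ δ ∈ w, δ = some 0 ∨ δ = none) ∨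
      multAt (X 0 ^ A * U + X 1 ^ B * W) w ≤ 1 := by
  induction w with
  | nil => intro U W A B _ _ _ _; left; simp
  | cons δ w ih =>
    intro U W A B hU hW hA hB
    obtain ⟨h0, hm, h1, h2, h3, h4, h5⟩ := hSTR K U W A B hU hW hA hB
    have zr : coeff 0 (strict (X 0 ^ A * U + X 1 ^ B * W) δ) ≠ 0 →
        multAt (X 0 ^ A * U + X 1 ^ B * W) (δ :: w) ≤ 1 := by
      intro h
      show multAt (strict (X 0 ^ A * U + X 1 ^ B * W) δ) w ≤ 1
      rw [hZR K _ h w]
      exact Nat.zero_le 1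
    have step : ∀ (U' W' : MvPolynomial (Fin 2) K) (A' B' : ℕ), coeff 0 U' ≠ 0 → coeff 0 W' ≠ 0 →
        1 ≤ A' → 1 ≤ B' → (δ = some 0 ∨ δ = none) →
        strict (X 0 ^ A * U + X 1 ^ B * W) δ = X 0 ^ A' * U' + X 1 ^ B' * W' →
        (∀ γ ∈ δ :: w, γ = some 0 ∨ γ = none) ∨
          multAt (X 0 ^ A * U + X 1 ^ B * W) (δ :: w) ≤ 1 := by
      intro U' W' A' B' hU' hW' hA' hB' hδ hs
      rcases ih U' W' A' B' hU' hW' hA' hB' with h | h
      · left
        intro γ hγ
        rcases List.mem_cons.1 hγ with h' | h'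
        · rw [h']; exact hδ
        · exact h γ h'
      · right
        show multAt (strict (X 0 ^ A * U + X 1 ^ B * W) δ) w ≤ 1
        rw [hs]
        exact h
    rcases lt_trichotomy A B with hAB | hAB | hAB
    · rcases δ with _ | c
      · obtain ⟨U', W', hU', hW', hs⟩ := h3 hAB
        exact step U' W' A (B - A) hU' hW' hA (by omega) (Or.inr rfl) hs
      · exact Or.inr (zr (h4 hAB c))
    · obtain ⟨h6, h7, h8⟩ := h5 hAB
      rcases δ with _ | c
      · exact Or.inr (zr h6)
      · by_cases hc : c = 0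
        · subst hc
          exact Or.inr (zr h7)
        · right
          obtain ⟨h9, h10⟩ := h8 c hc (Nat.cast_ne_zero.2 (by omega))
          show multAt (strict (X 0 ^ A * U + X 1 ^ B * W) (some c)) w ≤ 1
          exact ((hCHN K _ h9).1 w).trans h10
    · rcases δ with _ | c
      · exact Or.inr (zr (h2 hAB))
      · obtain ⟨U', W', hU', hW', hs⟩ := h1 hAB c
        by_cases hc : c = 0
        · subst hc
          rw [map_zero, add_zero] at hs
          exact step U' W' (A - B) B hU' hW' (by omega) hB (Or.inl rfl) hs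
        · refine Or.inr (zr ?_)
          rw [hs]
          exact coeff_zero_aux U' W' (A - B) B (by omega) c hc hW'

end CH2M

theorem specCH2 (hCHN : SpecCHN) (hZR : SpecZR2) (hSTR : SpecSTR2) : SpecCH2 := by
  intro K _ _ U W A B hU hW hA hB w
  exact CH2M.main hCHN hZR hSTR w U W A B hU hW hA hB

end Pool.Agent.Lib.MP387a85.IN
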