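import Pool.Agent.Lib.MP_387a85_ag.IN.Spec

/-!
# MP_387a85_ag, hive IN: module CHN

Multiplicities at infinitely near points: at most the multiplicity at the origin, and less than the
number of terms outside the toric words.
-/

set_option autoImplicit false

namespace Pool.Agent.Lib.MP387a85.IN

open MvPolynomial

namespace CHNM

theorem multAt_le (hRNG : SpecRNG) {K : Type} [Field K] [CharZero K] (w : List (Option K)) :
    ∀ g : MvPolynomial (Fin 2) K, g ≠ 0 → multAt g w ≤ mult g := by
  induction w with
  | nil => intro g _; exact le_rfl
  | cons δ w ih =>
    intro g hg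
    obtain ⟨h, h'⟩ := (hRNG K g hg).1 δ
    exact (ih _ h).trans h'

theorem dich (hTOR : SpecTOR) (hRNG : SpecRNG) {K : Type} [Field K] [CharZero K]
    (w : List (Option K)) :
    ∀ g : MvPolynomial (Fin 2) K, g ≠ 0 →
      (∀ δ ∈ w, δ = some 0 ∨ δ = none) ∨ multAt g w + 1 ≤ g.support.card := by
  induction w with
  | nil => intro g _; left; simp
  | cons δ w ih =>
    intro g hg
    have hne := ((hRNG K g hg).1 δ).1
    rcases δ with _ | c
    · have hs := (hTOR K g hg).2.2
      rcases ih _ hne with h | h
      · left
        intro δ hδ
        rcases List.mem_cons.1 hδ with h' | h'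
        · exact Or.inr h'
        · exact h δ h'
      · right
        rw [hs] at h
        exact h
    · by_cases hc : c = 0
      · subst hc
        have hs := (hTOR K g hg).1.2
        rcases ih _ hne with h | h
        · left
          intro δ hδ
          rcases List.mem_cons.1 hδ with h' | h'
          · exact Or.inl h'
          · exact h δ h'
        · right
          rw [hs] at h
          exact h
      · right
        have h2 := (hRNG K g hg).2 c hc
        have h3 := multAt_le hRNG w (strict g (some c)) hne
        show multAt (strict g (some c)) w + 1 ≤ _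
        omega

end CHNM

theorem specCHN (hTOR : SpecTOR) (hRNG : SpecRNG) : SpecCHN := by
  intro K _ _ g hg
  exact ⟨fun w => CHNM.multAt_le hRNG w g hg, fun w => CHNM.dich hTOR hRNG w g hg⟩

end Pool.Agent.Lib.MP387a85.IN
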