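import Pool.Agent.Lib.MP_387a85_ag.IN.Spec2

set_option autoImplicit false

namespace Pool.Agent.Lib.MP387a85.IN

open MvPolynomial

namespace CR2M

variable {K : Type} [Field K]

theorem mem_words (n : ℕ) : ∀ w : List (Option K), w.length < n →
    (∀ δ ∈ w, δ = some 0 ∨ δ = none) → w ∈ words K n := by
  induction n with
  | zero => intro w hw; exact absurd hw (Nat.not_lt_zero _)
  | succ n ih =>
    intro w hw ht
    rw [words]
    cases w with
    | nil => exact List.mem_cons_self
    | cons δ w =>
      have h1 : w ∈ words K n := ih w (by simp at hw; omega)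
        (fun x hx => ht x (List.mem_cons_of_mem _ hx))
      refine List.mem_cons_of_mem _ (List.mem_append.2 ?_)
      rcases ht δ List.mem_cons_self with rfl | rfl
      · exact Or.inl (List.mem_map.2 ⟨w, h1, rfl⟩)
      · exact Or.inr (List.mem_map.2 ⟨w, h1, rfl⟩)

theorem nodup_words (n : ℕ) : (words K n).Nodup := by
  induction n with
  | zero => exact List.nodup_nil
  | succ n ih =>
    rw [words, List.nodup_cons]
    constructor
    · intro h
      rcases List.mem_append.1 h with h | h
      · obtain ⟨w, -, hw⟩ := List.mem_map.1 h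
        exact absurd hw (List.cons_ne_nil _ _)
      · obtain ⟨w, -, hw⟩ := List.mem_map.1 h
        exact absurd hw (List.cons_ne_nil _ _)
    · rw [List.nodup_append']
      refine ⟨ih.map (fun a b h => (List.cons.inj h).2), ih.map (fun a b h => (List.cons.inj h).2),
        ?_⟩
      intro w h1 h2
      obtain ⟨w1, -, hw1⟩ := List.mem_map.1 h1
      obtain ⟨w2, -, hw2⟩ := List.mem_map.1 h2
      have h3 := (List.cons.inj (hw1.trans hw2.symm)).1
      exact absurd h3 (by simp)

end CR2M

open CR2M in
theorem specCR2 (hSM2 : SpecSM2) (hCH2 : SpecCH2) : SpecCR2 := by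
  classical
  intro K _ _ U W A B hU hW hA hB T
  have hch := hCH2 K U W A B hU hW hA hB
  obtain ⟨n, hn⟩ : ∃ n, ∀ w ∈ T, w.length < n :=
    ⟨T.sup List.length + 1, fun w hw => Nat.lt_succ_of_le (Finset.le_sup (f := List.length) hw)⟩
  set g := X 0 ^ A * U + X 1 ^ B * W with hg
  have h1 : ∑ w ∈ T.filter (fun w => ∀ δ ∈ w, δ = some 0 ∨ δ = none), multAt g w ^ 2
      ≤ A * B := by
    refine le_trans ?_ (hSM2 K n U W A B hU hW hA hB)
    rw [← List.sum_toFinset _ (nodup_words n)]
    refine Finset.sum_le_sum_of_subset ?_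
    intro w hw
    rw [Finset.mem_filter] at hw
    exact List.mem_toFinset.2 (mem_words n w (hn w hw.1) hw.2)
  have h2 : ∑ w ∈ T.filter (fun w => ¬ ∀ δ ∈ w, δ = some 0 ∨ δ = none), multAt g w ^ 2
      ≤ T.card := by
    calc ∑ w ∈ T.filter (fun w => ¬ ∀ δ ∈ w, δ = some 0 ∨ δ = none), multAt g w ^ 2
        ≤ ∑ _w ∈ T.filter (fun w => ¬ ∀ δ ∈ w, δ = some 0 ∨ δ = none), 1 := by
          refine Finset.sum_le_sum fun w hw => ?_
          rw [Finset.mem_filter] at hw
          have h3 := (hch w).resolve_left hw.2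
          calc multAt g w ^ 2 ≤ 1 ^ 2 := Nat.pow_le_pow_left h3 2
            _ = 1 := one_pow 2
      _ = (T.filter (fun w => ¬ ∀ δ ∈ w, δ = some 0 ∨ δ = none)).card := by
          rw [Finset.sum_const, smul_eq_mul, mul_one]
      _ ≤ T.card := Finset.card_le_card (Finset.filter_subset _ _)
  rw [← Finset.sum_filter_add_sum_filter_not T (fun w => ∀ δ ∈ w, δ = some 0 ∨ δ = none)]
  exact Nat.add_le_add h1 h2

end Pool.Agent.Lib.MP387a85.IN
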