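import Pool.Agent.Lib.MP_387a85_ag.IN.Spec

/-! # Module GEN: the multiplicity at a point which is not a vertex -/

set_option autoImplicit false

namespace Pool.Agent.Lib.MP387a85.IN

open MvPolynomial

namespace GENM

variable {K : Type} [Field K]

theorem dvd_aeval (g : MvPolynomial (Fin 2) K) (q : Fin 2 → Polynomial K) (r : Polynomial K)
    (h0 : r ∣ q 0) (h1 : r ∣ q 1) : r ^ mult g ∣ aeval q g := by
  rw [aeval_def, eval₂_eq']
  refine Finset.dvd_sum fun a ha => ?_
  rw [Fin.prod_univ_two]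
  have hm : mult g ≤ a 0 + a 1 := Nat.sInf_le ⟨a, ha, rfl⟩
  refine Dvd.dvd.mul_left ?_ _
  refine (pow_dvd_pow r hm).trans ?_
  rw [pow_add]
  exact mul_dvd_mul (pow_dvd_pow_of_dvd h0 _) (pow_dvd_pow_of_dvd h1 _)

theorem prod_three {R : Type} [CommRing R] (k : Fin 3) (A B D : R) (s : Fin 3 →₀ ℕ) :
    ∏ i, (if i = k then A else if i = k + 1 then B else D) ^ s i =
      A ^ s k * B ^ s (k + 1) * D ^ s (k + 2) := by
  fin_cases k
  · rw [Fin.prod_univ_three]
    simp
  · rw [Fin.prod_univ_three]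
    simp
    ring
  · rw [Fin.prod_univ_three]
    simp
    ring

theorem loc_val (f : MvPolynomial (Fin 3) K) (k : Fin 3) (α β : K) (N : ℕ) :
    aeval ![Polynomial.C α * ((Polynomial.X : Polynomial K) ^ N - 1),
        Polynomial.C β * ((Polynomial.X : Polynomial K) ^ (N + 1) - 1)] (loc f k α β) =
      ∑ s ∈ f.support, Polynomial.C (coeff s f * α ^ s (k + 1) * β ^ s (k + 2)) *
        Polynomial.X ^ (N * s (k + 1) + (N + 1) * s (k + 2)) := by
  unfold loc
  rw [← AlgHom.comp_apply, comp_aeval]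
  have hval : (fun i => aeval ![Polynomial.C α * ((Polynomial.X : Polynomial K) ^ N - 1),
        Polynomial.C β * ((Polynomial.X : Polynomial K) ^ (N + 1) - 1)]
        (if i = k then (1 : MvPolynomial (Fin 2) K) else if i = k + 1 then X 0 + C α
          else X 1 + C β)) =
      fun i : Fin 3 => if i = k then (1 : Polynomial K) else if i = k + 1 then
        Polynomial.C α * Polynomial.X ^ N else Polynomial.C β * Polynomial.X ^ (N + 1) := by
    funext i
    split_ifs
    · exact map_one _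
    · rw [map_add, aeval_X, MvPolynomial.algHom_C]
      simp [mul_sub]
    · rw [map_add, aeval_X, MvPolynomial.algHom_C]
      simp [mul_sub]
  rw [hval, aeval_def, eval₂_eq']
  refine Finset.sum_congr rfl fun s _ => ?_
  rw [prod_three]
  simp only [one_pow, one_mul, mul_pow, ← pow_mul, map_mul, map_pow, pow_add]
  have hC : (algebraMap K (Polynomial K)) (coeff s f) = Polynomial.C (coeff s f) := rfl
  rw [hC]
  ring

theorem coeff_at {S : Finset (Fin 3 →₀ ℕ)} (c : (Fin 3 →₀ ℕ) → K) (E : (Fin 3 →₀ ℕ) → ℕ)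
    (hE : ∀ s ∈ S, ∀ s' ∈ S, E s = E s' → s = s') (s : Fin 3 →₀ ℕ) (hs : s ∈ S) :
    (∑ s ∈ S, Polynomial.C (c s) * (Polynomial.X : Polynomial K) ^ (E s)).coeff (E s) = c s := by
  rw [Polynomial.finset_sum_coeff, Finset.sum_eq_single s]
  · rw [Polynomial.coeff_C_mul, Polynomial.coeff_X_pow, if_pos rfl, mul_one]
  · intro s' hs' hne
    rw [Polynomial.coeff_C_mul, Polynomial.coeff_X_pow, if_neg, mul_zero]
    intro h
    exact hne (hE s' hs' s hs h.symm)
  · intro h
    exact absurd hs h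

theorem card_le {S : Finset (Fin 3 →₀ ℕ)} (c : (Fin 3 →₀ ℕ) → K) (E : (Fin 3 →₀ ℕ) → ℕ) :
    (∑ s ∈ S, Polynomial.C (c s) * (Polynomial.X : Polynomial K) ^ (E s)).support.card ≤ S.card := by
  classical
  have h : (∑ s ∈ S, Polynomial.C (c s) * (Polynomial.X : Polynomial K) ^ (E s)).support ⊆
      S.image E := by
    intro n hn
    rw [Polynomial.mem_support_iff, Polynomial.finset_sum_coeff] at hn
    obtain ⟨s, hs, h1⟩ := Finset.exists_ne_zero_of_sum_ne_zero hn
    rw [Polynomial.coeff_C_mul, Polynomial.coeff_X_pow] at h1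
    rw [Finset.mem_image]
    refine ⟨s, hs, ?_⟩
    by_contra h2
    exact h1 (by rw [if_neg (fun h3 => h2 h3.symm), mul_zero])
  exact (Finset.card_le_card h).trans Finset.card_image_le

theorem exists_zero (j : Fin 3) (F : MvPolynomial (Fin 3) K)
    (h : ¬ (X j : MvPolynomial (Fin 3) K) ∣ F) : ∃ s ∈ F.support, s j = 0 := by
  by_contra hcon
  push Not at hcon
  apply h
  rw [F.as_sum]
  refine Finset.dvd_sum fun s hs => ?_
  rw [X_dvd_monomial]
  exact Or.inr (hcon s hs)

theorem sum_three (k : Fin 3) (s : Fin 3 →₀ ℕ) : s.degree = s k + s (k + 1) + s (k + 2) := by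
  rw [Finsupp.degree_eq_sum, Fin.sum_univ_three]
  fin_cases k
  · simp
  · simp
    ring
  · simp
    ring

theorem ext_three (k : Fin 3) (s s' : Fin 3 →₀ ℕ) (h0 : s k = s' k) (h1 : s (k + 1) = s' (k + 1))
    (h2 : s (k + 2) = s' (k + 2)) : s = s' := by
  ext i
  fin_cases k <;> fin_cases i <;> simp at h0 h1 h2 ⊢ <;> assumption

end GENM

open GENM

theorem specGEN : SpecGEN := by
  intro K _ _ f d hd hX k α β hαβ
  have hdeg : ∀ s ∈ f.support, s k + s (k + 1) + s (k + 2) = d := by
    intro s hs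
    rw [← sum_three]
    by_contra hne
    exact (mem_support_iff.1 hs) (hd.coeff_eq_zero hne)
  set N := d + 1 with hN
  set c : (Fin 3 →₀ ℕ) → K := fun s => coeff s f * α ^ s (k + 1) * β ^ s (k + 2) with hc
  set E : (Fin 3 →₀ ℕ) → ℕ := fun s => N * s (k + 1) + (N + 1) * s (k + 2) with hE
  have hinj : ∀ s ∈ f.support, ∀ s' ∈ f.support, E s = E s' → s = s' := by
    intro s hs s' hs' h
    have e1 := hdeg s hs
    have e2 := hdeg s' hs'
    have h' : N * s (k + 1) + (N + 1) * s (k + 2) = N * s' (k + 1) + (N + 1) * s' (k + 2) := h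
    have h1 : N * (s (k + 1) + s (k + 2)) + s (k + 2) =
        N * (s' (k + 1) + s' (k + 2)) + s' (k + 2) := by
      rw [show N * (s (k + 1) + s (k + 2)) + s (k + 2) = N * s (k + 1) + (N + 1) * s (k + 2) by ring,
        h']
      ring
    have hm : s (k + 2) = s' (k + 2) := by
      have h2 := congrArg (· % N) h1
      simp only [Nat.mul_add_mod] at h2
      rwa [Nat.mod_eq_of_lt (by omega), Nat.mod_eq_of_lt (by omega)] at h2
    have h3 : s (k + 1) + s (k + 2) = s' (k + 1) + s' (k + 2) := by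
      rw [hm] at h1 ⊢
      exact Nat.eq_of_mul_eq_mul_left (show 0 < N by omega) (Nat.add_right_cancel h1)
    exact ext_three k s s' (by omega) (by omega) hm
  set Φ : MvPolynomial (Fin 2) K →ₐ[K] Polynomial K :=
    aeval ![Polynomial.C α * ((Polynomial.X : Polynomial K) ^ N - 1),
        Polynomial.C β * ((Polynomial.X : Polynomial K) ^ (N + 1) - 1)] with hΦ
  have hval : Φ (loc f k α β) = ∑ s ∈ f.support, Polynomial.C (c s) * Polynomial.X ^ (E s) :=
    loc_val f k α β N
  -- a term which is not zero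
  have hs0 : ∃ s ∈ f.support, c s ≠ 0 := by
    by_cases hα : α = 0
    · have hβ : β ≠ 0 := by
        rcases hαβ with h | h
        · exact absurd hα h
        · exact h
      obtain ⟨s, hs, h0⟩ := exists_zero (k + 1) f (hX _)
      refine ⟨s, hs, ?_⟩
      simp only [hc]
      rw [h0, pow_zero, mul_one]
      exact mul_ne_zero (mem_support_iff.1 hs) (pow_ne_zero _ hβ)
    · by_cases hβ : β = 0
      · obtain ⟨s, hs, h0⟩ := exists_zero (k + 2) f (hX _)
        refine ⟨s, hs, ?_⟩
        simp only [hc]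
        rw [h0, pow_zero, mul_one]
        exact mul_ne_zero (mem_support_iff.1 hs) (pow_ne_zero _ hα)
      · obtain ⟨s, hs, h0⟩ := exists_zero k f (hX _)
        refine ⟨s, hs, ?_⟩
        simp only [hc]
        exact mul_ne_zero (mul_ne_zero (mem_support_iff.1 hs) (pow_ne_zero _ hα)) (pow_ne_zero _ hβ)
  obtain ⟨s, hs, hcs⟩ := hs0
  have hne : Φ (loc f k α β) ≠ 0 := by
    intro h0
    have h1 := coeff_at c E hinj s hs
    rw [← hval, h0, Polynomial.coeff_zero] at h1
    exact hcs h1.symm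
  refine ⟨fun h0 => hne (by rw [h0, map_zero]), ?_⟩
  by_contra hcon
  have hle : f.support.card ≤ mult (loc f k α β) := by omega
  have hdvd1 : ∀ n : ℕ, (Polynomial.X - Polynomial.C 1 : Polynomial K) ∣ Polynomial.X ^ n - 1 := by
    intro n
    have h1 := sub_dvd_pow_sub_pow (Polynomial.X : Polynomial K) (Polynomial.C 1) n
    simpa using h1
  have hd1 : (Polynomial.X - Polynomial.C 1 : Polynomial K) ^ mult (loc f k α β) ∣
      Φ (loc f k α β) := by
    refine dvd_aeval (loc f k α β) _ _ ?_ ?_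
    · exact Dvd.dvd.mul_left (hdvd1 N) _
    · exact Dvd.dvd.mul_left (hdvd1 (N + 1)) _
  refine not_dvd f.support.card (Φ (loc f k α β)) hne ?_ ((pow_dvd_pow _ hle).trans hd1)
  rw [hval]
  exact card_le c E

end Pool.Agent.Lib.MP387a85.IN
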