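import Pool.Agent.Lib.MP_387a85_ag.IN.Spec2

set_option autoImplicit false

namespace Pool.Agent.Lib.MP387a85.IN

namespace GI2M

/-- The inequality for numbers. -/
lemma num {X1 X2 Y1 Y2 z n m e e' : ℤ} (hz0 : 0 ≤ z) (hz1 : z ≤ X1) (hz2 : z ≤ X2)
    (hX1 : X1 ≤ n) (hX2 : X2 ≤ n) (hY1 : Y1 ≤ m) (hY2 : Y2 ≤ m) (hz : z + X1 + X2 ≤ 2 * n + e)
    (he : 0 ≤ e) (he' : 0 ≤ e') (hm : 0 ≤ m) (hem : e' ≤ m) :
    X1 * Y1 + X2 * Y2 + z * (2 * m + e' - Y1 - Y2) ≤ 2 * n * m + e * e' := by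
  have h1 : 0 ≤ (X1 - z) * (m - Y1) := mul_nonneg (by linarith) (by linarith)
  have h2 : 0 ≤ (X2 - z) * (m - Y2) := mul_nonneg (by linarith) (by linarith)
  have h3 : X1 * Y1 + X2 * Y2 + z * (2 * m + e' - Y1 - Y2) ≤ (X1 + X2) * m + z * e' := by
    nlinarith [h1, h2]
  rcases le_total z e with hze | hze
  · have h4 : 0 ≤ (2 * n - (X1 + X2)) * m := mul_nonneg (by linarith) hm
    have h5 : 0 ≤ (e - z) * e' := mul_nonneg (by linarith) he'
    nlinarith [h3, h4, h5]
  · have h4 : 0 ≤ (2 * n + e - z - (X1 + X2)) * m := mul_nonneg (by linarith) hm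
    have h5 : 0 ≤ (z - e) * (m - e') := mul_nonneg (by linarith) (by linarith)
    nlinarith [h3, h4, h5]

/-- The inequality for sums. -/
lemma sums {V : Type} [DecidableEq V] (S : Finset V) (X Y : V → ℤ) {n m e e' : ℤ}
    (hX0 : ∀ v, 0 ≤ X v) (hY0 : ∀ v, 0 ≤ Y v) (hXn : ∀ v, X v ≤ n) (hYm : ∀ v, Y v ≤ m)
    (hX : ∑ v ∈ S, X v ≤ 2 * n + e) (hY : ∑ v ∈ S, Y v ≤ 2 * m + e') (he : 0 ≤ e)
    (he' : 0 ≤ e') (hm : 0 ≤ m) (hS : 2 ≤ S.card) :
    ∑ v ∈ S, X v * Y v ≤ 2 * n * m + e * e' := by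
  rcases lt_or_ge m e' with hem | hem
  · have h1 : ∑ v ∈ S, X v * Y v ≤ ∑ v ∈ S, X v * m :=
      Finset.sum_le_sum (fun v _ => mul_le_mul_of_nonneg_left (hYm v) (hX0 v))
    rw [← Finset.sum_mul] at h1
    have h2 : (∑ v ∈ S, X v) * m ≤ (2 * n + e) * m := mul_le_mul_of_nonneg_right hX hm
    have h3 : 0 ≤ e * (e' - m) := mul_nonneg he (by linarith)
    nlinarith [h1, h2, h3]
  · have hSne : S.Nonempty := by
      rw [← Finset.card_pos]; omega
    obtain ⟨v1, hv1, hmax1⟩ := Finset.exists_max_image S X hSne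
    have hc1 : (S.erase v1).card = S.card - 1 := Finset.card_erase_of_mem hv1
    have hS1ne : (S.erase v1).Nonempty := by
      rw [← Finset.card_pos]; omega
    obtain ⟨v2, hv2, hmax2⟩ := Finset.exists_max_image (S.erase v1) X hS1ne
    set R := (S.erase v1).erase v2 with hR
    have hsX : ∑ v ∈ S, X v = X v1 + (X v2 + ∑ v ∈ R, X v) := by
      rw [hR, Finset.add_sum_erase _ _ hv2, Finset.add_sum_erase _ _ hv1]
    have hsY : ∑ v ∈ S, Y v = Y v1 + (Y v2 + ∑ v ∈ R, Y v) := by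
      rw [hR, Finset.add_sum_erase _ _ hv2, Finset.add_sum_erase _ _ hv1]
    have hsXY : ∑ v ∈ S, X v * Y v = X v1 * Y v1 + (X v2 * Y v2 + ∑ v ∈ R, X v * Y v) := by
      rw [hR, Finset.add_sum_erase _ (fun v => X v * Y v) hv2,
        Finset.add_sum_erase _ (fun v => X v * Y v) hv1]
    have hv2S : v2 ∈ S := Finset.mem_of_mem_erase hv2
    obtain ⟨z, hz0, hzR, hz2, hz⟩ : ∃ z : ℤ, 0 ≤ z ∧ (∀ v ∈ R, X v ≤ z) ∧ z ≤ X v2 ∧
        z + X v1 + X v2 ≤ 2 * n + e := by
      rcases R.eq_empty_or_nonempty with h0 | hne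
      · refine ⟨0, le_refl _, ?_, hX0 _, ?_⟩
        · intro v hv
          rw [h0] at hv
          simp at hv
        · linarith [hXn v1, hXn v2]
      · obtain ⟨v3, hv3, hmax3⟩ := Finset.exists_max_image R X hne
        refine ⟨X v3, hX0 _, hmax3, hmax2 v3 (Finset.mem_of_mem_erase hv3), ?_⟩
        have h3 : X v3 ≤ ∑ v ∈ R, X v := Finset.single_le_sum (fun v _ => hX0 v) hv3
        linarith
    have hz1 : z ≤ X v1 := le_trans hz2 (hmax1 v2 hv2S)
    have hR1 : ∑ v ∈ R, X v * Y v ≤ z * ∑ v ∈ R, Y v := by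
      rw [Finset.mul_sum]
      exact Finset.sum_le_sum (fun v hv => mul_le_mul_of_nonneg_right (hzR v hv) (hY0 v))
    have hR2 : z * ∑ v ∈ R, Y v ≤ z * (2 * m + e' - Y v1 - Y v2) :=
      mul_le_mul_of_nonneg_left (by linarith) hz0
    have := num hz0 hz1 hz2 (hXn v1) (hXn v2) (hYm v1) (hYm v2) hz he he' hm hem
    rw [hsXY]
    linarith

end GI2M

theorem specGI2 : SpecGI2 := by
  intro P Q V _ _ _ L φ ψ α β n m hn hm hL hA hB hAs hBs
  classical
  set A := L.image Prod.fst with hAdef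
  set B := L.image Prod.snd with hBdef
  set S := A.image φ with hSdef
  have hSB : S = B.image ψ := by
    ext v
    simp only [hSdef, hAdef, hBdef, Finset.mem_image]
    constructor
    · rintro ⟨a, ⟨l, hl, rfl⟩, rfl⟩
      exact ⟨l.2, ⟨l, hl, rfl⟩, (hL l hl).symm⟩
    · rintro ⟨b, ⟨l, hl, rfl⟩, rfl⟩
      exact ⟨l.1, ⟨l, hl, rfl⟩, hL l hl⟩
  set X : V → ℤ := fun v => ∑ a ∈ A.filter (fun a => φ a = v), (α a : ℤ) with hX
  set Y : V → ℤ := fun v => ∑ b ∈ B.filter (fun b => ψ b = v), (β b : ℤ) with hY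
  have hX0 : ∀ v, 0 ≤ X v := fun v => Finset.sum_nonneg (fun a _ => by positivity)
  have hY0 : ∀ v, 0 ≤ Y v := fun v => Finset.sum_nonneg (fun a _ => by positivity)
  have hXn : ∀ v, X v ≤ n := by
    intro v
    have := hA v
    simp only [hX]
    exact_mod_cast this
  have hYm : ∀ v, Y v ≤ m := by
    intro v
    have := hB v
    simp only [hY]
    exact_mod_cast this
  have hsX : ∑ v ∈ S, X v = ∑ a ∈ A, (α a : ℤ) := by
    simp only [hX]
    exact Finset.sum_fiberwise_of_maps_to (fun a ha => Finset.mem_image_of_mem φ ha) _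
  have hsY : ∑ v ∈ S, Y v = ∑ b ∈ B, (β b : ℤ) := by
    simp only [hY]
    rw [hSB]
    exact Finset.sum_fiberwise_of_maps_to (fun a ha => Finset.mem_image_of_mem ψ ha) _
  have hsum : (∑ l ∈ L, (α l.1 : ℤ) * β l.2) ≤ ∑ v ∈ S, X v * Y v := by
    have h1 : (∑ l ∈ L, (α l.1 : ℤ) * β l.2) =
        ∑ v ∈ S, ∑ l ∈ L.filter (fun l => φ l.1 = v), (α l.1 : ℤ) * β l.2 := by
      symm
      apply Finset.sum_fiberwise_of_maps_to
      intro l hl
      exact Finset.mem_image_of_mem φ (Finset.mem_image_of_mem Prod.fst hl)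
    rw [h1]
    apply Finset.sum_le_sum
    intro v _
    simp only [hX, hY]
    rw [Finset.sum_mul_sum, ← Finset.sum_product']
    apply Finset.sum_le_sum_of_subset_of_nonneg
    · intro l hl
      rw [Finset.mem_filter] at hl
      rw [Finset.mem_product, Finset.mem_filter, Finset.mem_filter]
      refine ⟨⟨Finset.mem_image_of_mem _ hl.1, hl.2⟩, Finset.mem_image_of_mem _ hl.1, ?_⟩
      rw [← hL l hl.1]
      exact hl.2
    · intro l _ _
      positivity
  have hAL : A.card ≤ L.card := Finset.card_image_le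
  have hBL : B.card ≤ L.card := Finset.card_image_le
  have hSA : S.card ≤ A.card := Finset.card_image_le
  have hSB' : S.card ≤ B.card := by
    rw [hSB]
    exact Finset.card_image_le
  have hAs' : ∑ v ∈ S, X v ≤ 2 * (n : ℤ) + ((A.card : ℤ) - 2) := by
    rw [hsX]
    have : (∑ a ∈ A, (α a : ℤ)) + 2 ≤ 2 * n + A.card := by exact_mod_cast hAs
    linarith
  have hBs' : ∑ v ∈ S, Y v ≤ 2 * (m : ℤ) + ((B.card : ℤ) - 2) := by
    rw [hsY]
    have : (∑ a ∈ B, (β a : ℤ)) + 2 ≤ 2 * m + B.card := by exact_mod_cast hBs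
    linarith
  refine le_trans hsum ?_
  have hnm : (0 : ℤ) ≤ (n : ℤ) * m := by positivity
  rcases Nat.lt_or_ge S.card 2 with hS | hS
  · have hle : ∑ v ∈ S, X v * Y v ≤ (n : ℤ) * m := by
      rcases S.eq_empty_or_nonempty with h0 | hne
      · rw [h0]
        simpa using hnm
      · have hc : S.card = 1 := by
          have := Finset.card_pos.mpr hne
          omega
        obtain ⟨v, hv⟩ := Finset.card_eq_one.mp hc
        rw [hv, Finset.sum_singleton]
        exact mul_le_mul (hXn v) (hYm v) (hY0 v) (by positivity)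
    have hsq : (0 : ℤ) ≤ ((L.card : ℤ) - 2) ^ 2 := sq_nonneg _
    linarith
  · have h1 := GI2M.sums S X Y (n := n) (m := m) (e := (A.card : ℤ) - 2) (e' := (B.card : ℤ) - 2)
      hX0 hY0 hXn hYm hAs' hBs' (by have : 2 ≤ A.card := le_trans hS hSA; omega)
      (by have : 2 ≤ B.card := le_trans hS hSB'; omega) (by positivity) hS
    have h2 : ((A.card : ℤ) - 2) * ((B.card : ℤ) - 2) ≤ ((L.card : ℤ) - 2) ^ 2 := by
      rw [sq]
      apply mul_le_mul
      · have : (A.card : ℤ) ≤ L.card := by exact_mod_cast hAL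
        linarith
      · have : (B.card : ℤ) ≤ L.card := by exact_mod_cast hBL
        linarith
      · have : 2 ≤ B.card := le_trans hS hSB'
        omega
      · have : 2 ≤ A.card := le_trans hS hSA
        omega
    linarith

end Pool.Agent.Lib.MP387a85.IN
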