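import Pool.Agent.Lib.MP_387a85_ag.IN.Spec

/-! LIN: the line `X i = 0` at the points of the plane (MP_387a85_ag). -/

set_option autoImplicit false

namespace Pool.Agent.Lib.MP387a85.IN

open MvPolynomial

namespace LINM

theorem of_coeff {K : Type} [Field K] (g : MvPolynomial (Fin 2) K) (a : Fin 2 →₀ ℕ)
    (ha : coeff a g ≠ 0) (h1 : a 0 + a 1 ≤ 1) : g ≠ 0 ∧ mult g ≤ 1 := by
  refine ⟨?_, ?_⟩
  · rintro rfl
    simp at ha
  · unfold mult
    have h2 : a 0 + a 1 ∈ {n : ℕ | ∃ a ∈ g.support, a 0 + a 1 = n} :=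
      ⟨a, mem_support_iff.2 ha, rfl⟩
    exact (Nat.sInf_le h2).trans h1

theorem loc_eq {K : Type} [Field K] (c : K) (i k : Fin 3) (α β : K) :
    loc (C c * X i) k α β = C c * (if i = k then (1 : MvPolynomial (Fin 2) K)
      else if i = k + 1 then X 0 + C α else X 1 + C β) := by
  unfold loc
  rw [map_mul, aeval_X, aeval_C]
  rfl

end LINM

open LINM in
theorem specLIN : SpecLIN := by
  intro K _ c hc i k α β
  rw [loc_eq]
  split_ifs with h1 h2
  · refine of_coeff _ 0 ?_ (by simp)
    simpa using hc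
  · refine of_coeff _ (Finsupp.single 0 1) ?_ (by simp)
    rw [coeff_C_mul, coeff_add, coeff_X, if_pos rfl, coeff_C, if_neg (by
      intro h
      have := DFunLike.congr_fun h 0
      simp at this)]
    simpa using hc
  · refine of_coeff _ (Finsupp.single 1 1) ?_ (by simp)
    rw [coeff_C_mul, coeff_add, coeff_X, if_pos rfl, coeff_C, if_neg (by
      intro h
      have := DFunLike.congr_fun h 1
      simp at this)]
    simpa using hc

end Pool.Agent.Lib.MP387a85.IN
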