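import Pool.Agent.Lib.MP_387a85_ag.IN.Spec2

/-!
# Module LK2: the local equation of the curve `f(x) = g(y)` at a point
-/

set_option autoImplicit false

namespace Pool.Agent.Lib.MP387a85.IN

open MvPolynomial

namespace LK2M

variable {K : Type} [Field K]

theorem eval_ne {f₁ f₂ : Polynomial K} (hc : IsCoprime f₁ f₂) (a : K) (h1 : f₁.eval a = 0)
    (h2 : f₂.eval a = 0) : False := by
  obtain ⟨u, v, huv⟩ := hc
  have h3 := congrArg (Polynomial.eval a) huv
  rw [Polynomial.eval_add, Polynomial.eval_mul, Polynomial.eval_mul, h1, h2, Polynomial.eval_one] at h3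
  simp at h3

theorem h_ne {f₁ f₂ : Polynomial K} (hc : IsCoprime f₁ f₂)
    (hd : 1 ≤ max f₁.natDegree f₂.natDegree) (a : K) :
    Polynomial.C (f₂.eval a) * f₁ - Polynomial.C (f₁.eval a) * f₂ ≠ 0 := by
  intro h0
  have h1 : Polynomial.C (f₂.eval a) * f₁ = Polynomial.C (f₁.eval a) * f₂ := sub_eq_zero.1 h0
  have key : ∀ p q : Polynomial K, ∀ c d : K, IsCoprime p q → c ≠ 0 →
      Polynomial.C c * p = Polynomial.C d * q → p.natDegree = 0 ∧ q.natDegree = 0 := by
    intro p q c d hpq hcne he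
    have h2 : p = Polynomial.C (c⁻¹ * d) * q := by
      have h3 : Polynomial.C c⁻¹ * (Polynomial.C c * p) = p := by
        rw [← mul_assoc, ← Polynomial.C_mul, inv_mul_cancel₀ hcne, Polynomial.C_1, one_mul]
      rw [← h3, he, ← mul_assoc, ← Polynomial.C_mul]
    have h4 : q ∣ p := ⟨Polynomial.C (c⁻¹ * d), by rw [mul_comm]; exact h2⟩
    have h5 : IsUnit q := hpq.symm.isUnit_of_dvd' dvd_rfl h4
    have h6 : q.natDegree = 0 := Polynomial.natDegree_eq_zero_of_isUnit h5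
    refine ⟨?_, h6⟩
    rw [h2]
    have h7 := Polynomial.natDegree_C_mul_le (c⁻¹ * d) q
    omega
  by_cases h2 : f₂.eval a = 0
  · have h3 : f₁.eval a ≠ 0 := fun h3 => eval_ne hc a h3 h2
    obtain ⟨h4, h5⟩ := key f₂ f₁ (f₁.eval a) (f₂.eval a) hc.symm h3 h1.symm
    omega
  · obtain ⟨h4, h5⟩ := key f₁ f₂ (f₂.eval a) (f₁.eval a) hc h2 h1
    omega

theorem fib {f₁ f₂ : Polynomial K} (hc : IsCoprime f₁ f₂)
    (hd : 1 ≤ max f₁.natDegree f₂.natDegree) (a : K) :
    1 ≤ ram f₁ f₂ a ∧ ∃ q : Polynomial K,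
      Polynomial.C (f₂.eval a) * f₁ - Polynomial.C (f₁.eval a) * f₂ =
        (Polynomial.X - Polynomial.C a) ^ (ram f₁ f₂ a) * q ∧ q.eval a ≠ 0 := by
  have hne := h_ne hc hd a
  constructor
  · have h1 : 0 < ram f₁ f₂ a := by
      unfold ram
      rw [Polynomial.rootMultiplicity_pos hne]
      show Polynomial.eval a _ = 0
      simp only [Polynomial.eval_sub, Polynomial.eval_mul, Polynomial.eval_C]
      ring
    exact h1
  · obtain ⟨q, hq, hnd⟩ := Polynomial.exists_eq_pow_rootMultiplicity_mul_and_not_dvd _ hne a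
    refine ⟨q, hq, fun h => hnd ?_⟩
    rw [Polynomial.dvd_iff_isRoot]
    exact h

/-- substitution in a polynomial in one variable -/
theorem coeff_zero_aeval (z : MvPolynomial (Fin 2) K) (p : Polynomial K) :
    coeff 0 (Polynomial.aeval z p) = p.eval (coeff 0 z) := by
  have h1 : constantCoeff (Polynomial.aeval z p) = p.eval (constantCoeff z) := by
    rw [Polynomial.aeval_def, Polynomial.hom_eval₂, constantCoeff_comp_algebraMap,
      Polynomial.eval₂_id]
  rw [constantCoeff_eq] at h1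
  exact h1

theorem locA_x (p : Polynomial K) (a b : K) :
    locA (Polynomial.aeval (X 0) p) a b =
      Polynomial.aeval (X 0 + C a : MvPolynomial (Fin 2) K) p := by
  unfold locA
  rw [← Polynomial.aeval_algHom_apply, aeval_X]
  rfl

theorem locA_y (p : Polynomial K) (a b : K) :
    locA (Polynomial.aeval (X 1) p) a b =
      Polynomial.aeval (X 1 + C b : MvPolynomial (Fin 2) K) p := by
  unfold locA
  rw [← Polynomial.aeval_algHom_apply, aeval_X]
  rfl

theorem locA_curve (f₁ f₂ g₁ g₂ : Polynomial K) (a b : K) :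
    locA (curve f₁ f₂ g₁ g₂) a b =
      Polynomial.aeval (X 0 + C a : MvPolynomial (Fin 2) K) f₁ *
          Polynomial.aeval (X 1 + C b : MvPolynomial (Fin 2) K) g₂ -
        Polynomial.aeval (X 0 + C a : MvPolynomial (Fin 2) K) f₂ *
          Polynomial.aeval (X 1 + C b : MvPolynomial (Fin 2) K) g₁ := by
  rw [← locA_x f₁ a b, ← locA_x f₂ a b, ← locA_y g₂ a b, ← locA_y g₁ a b]
  unfold locA curve
  rw [map_sub, map_mul, map_mul]

/-- the equation of the fibre after the substitution -/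
theorem subst_fib (i : Fin 2) (f₁ f₂ q : Polynomial K) (a : K) (n : ℕ)
    (h : Polynomial.C (f₂.eval a) * f₁ - Polynomial.C (f₁.eval a) * f₂ =
      (Polynomial.X - Polynomial.C a) ^ n * q) :
    C (f₂.eval a) * Polynomial.aeval (X i + C a : MvPolynomial (Fin 2) K) f₁ -
      C (f₁.eval a) * Polynomial.aeval (X i + C a : MvPolynomial (Fin 2) K) f₂ =
      X i ^ n * Polynomial.aeval (X i + C a : MvPolynomial (Fin 2) K) q := by
  have h1 := congrArg (Polynomial.aeval (X i + C a : MvPolynomial (Fin 2) K)) h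
  simp only [map_sub, map_mul, map_pow, Polynomial.aeval_C, Polynomial.aeval_X,
    MvPolynomial.algebraMap_eq, add_sub_cancel_right] at h1
  exact h1

theorem coeff_zero_lin (i : Fin 2) (a : K) : coeff 0 (X i + C a : MvPolynomial (Fin 2) K) = a := by
  rw [← constantCoeff_eq]
  simp

end LK2M

open LK2M in
theorem specLK2 : SpecLK2 := by
  intro K _ f₁ f₂ g₁ g₂ hf hg hfd hgd a b hab
  obtain ⟨hA, q, hq, hqa⟩ := fib hf hfd a
  obtain ⟨hB, r, hr, hrb⟩ := fib hg hgd b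
  refine ⟨hA, hB, ?_⟩
  have e1 := subst_fib 0 f₁ f₂ q a _ hq
  have e2 := subst_fib 1 g₁ g₂ r b _ hr
  rw [locA_curve]
  have c0 : ∀ (i : Fin 2) (z : K) (p : Polynomial K),
      coeff 0 (Polynomial.aeval (X i + C z : MvPolynomial (Fin 2) K) p) = p.eval z := by
    intro i z p
    rw [coeff_zero_aeval, coeff_zero_lin]
  have cm : ∀ u v w : MvPolynomial (Fin 2) K, coeff 0 (u * v * w) =
      coeff 0 u * coeff 0 v * coeff 0 w := by
    intro u v w
    simp only [← constantCoeff_eq, map_mul]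
  have cC : ∀ z : K, coeff 0 (C z : MvPolynomial (Fin 2) K) = z := by
    intro z
    simp only [← constantCoeff_eq, constantCoeff_C]
  set F₁ := Polynomial.aeval (X 0 + C a : MvPolynomial (Fin 2) K) f₁ with hF₁
  set F₂ := Polynomial.aeval (X 0 + C a : MvPolynomial (Fin 2) K) f₂ with hF₂
  set G₁ := Polynomial.aeval (X 1 + C b : MvPolynomial (Fin 2) K) g₁ with hG₁
  set G₂ := Polynomial.aeval (X 1 + C b : MvPolynomial (Fin 2) K) g₂ with hG₂
  set Pz := Polynomial.aeval (X 0 + C a : MvPolynomial (Fin 2) K) q with hPz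
  set Rz := Polynomial.aeval (X 1 + C b : MvPolynomial (Fin 2) K) r with hRz
  by_cases h2 : f₂.eval a = 0
  · have h1 : f₁.eval a ≠ 0 := fun h => eval_ne hf a h h2
    have w2 : g₂.eval b = 0 := by
      rw [h2, zero_mul] at hab
      exact (mul_eq_zero.1 hab).resolve_left h1
    have w1 : g₁.eval b ≠ 0 := fun h => eval_ne hg b h w2
    refine ⟨C (f₁.eval a)⁻¹ * Pz * G₁, C (-(g₁.eval b)⁻¹) * Rz * F₁, ?_, ?_, ?_⟩
    · rw [cm, cC, hPz, hG₁, c0, c0]
      exact mul_ne_zero (mul_ne_zero (inv_ne_zero h1) hqa) w1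
    · rw [cm, cC, hRz, hF₁, c0, c0]
      exact mul_ne_zero (mul_ne_zero (neg_ne_zero.2 (inv_ne_zero w1)) hrb) h1
    · have i1 : (C (f₁.eval a)⁻¹ : MvPolynomial (Fin 2) K) * C (f₁.eval a) = 1 := by
        rw [← C_mul, inv_mul_cancel₀ h1, C_1]
      have i2 : (C (g₁.eval b)⁻¹ : MvPolynomial (Fin 2) K) * C (g₁.eval b) = 1 := by
        rw [← C_mul, inv_mul_cancel₀ w1, C_1]
      rw [h2, C_0, zero_mul, zero_sub] at e1
      rw [w2, C_0, zero_mul, zero_sub] at e2
      have e3 : X 0 ^ ram f₁ f₂ a * (C (f₁.eval a)⁻¹ * Pz * G₁) =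
          C (f₁.eval a)⁻¹ * (X 0 ^ ram f₁ f₂ a * Pz) * G₁ := by ring
      have e4 : X 1 ^ ram g₁ g₂ b * (C (-(g₁.eval b)⁻¹) * Rz * F₁) =
          C (-(g₁.eval b)⁻¹) * (X 1 ^ ram g₁ g₂ b * Rz) * F₁ := by ring
      rw [e3, e4, ← e1, ← e2, C_neg]
      linear_combination (-(F₂ * G₁)) * (-i1) + (F₁ * G₂) * (-i2)
  · have w2 : g₂.eval b ≠ 0 := by
      intro w2
      rw [w2, mul_zero] at hab
      have w1 : g₁.eval b = 0 := (mul_eq_zero.1 hab.symm).resolve_left h2
      exact eval_ne hg b w1 w2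
    refine ⟨C (f₂.eval a)⁻¹ * Pz * G₂, C (-(g₂.eval b)⁻¹) * Rz * F₂, ?_, ?_, ?_⟩
    · rw [cm, cC, hPz, hG₂, c0, c0]
      exact mul_ne_zero (mul_ne_zero (inv_ne_zero h2) hqa) w2
    · rw [cm, cC, hRz, hF₂, c0, c0]
      exact mul_ne_zero (mul_ne_zero (neg_ne_zero.2 (inv_ne_zero w2)) hrb) h2
    · have i1 : (C (f₂.eval a)⁻¹ : MvPolynomial (Fin 2) K) * C (f₂.eval a) = 1 := by
        rw [← C_mul, inv_mul_cancel₀ h2, C_1]
      have i2 : (C (g₂.eval b)⁻¹ : MvPolynomial (Fin 2) K) * C (g₂.eval b) = 1 := by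
        rw [← C_mul, inv_mul_cancel₀ w2, C_1]
      have i3 : (C (f₂.eval a)⁻¹ : MvPolynomial (Fin 2) K) * C (f₁.eval a) =
          C (g₂.eval b)⁻¹ * C (g₁.eval b) := by
        rw [← C_mul, ← C_mul]
        have h3 : (f₂.eval a)⁻¹ * f₁.eval a = (g₂.eval b)⁻¹ * g₁.eval b := by
          rw [inv_mul_eq_div, inv_mul_eq_div, div_eq_div_iff h2 w2, hab]
          ring
        rw [h3]
      have e3 : X 0 ^ ram f₁ f₂ a * (C (f₂.eval a)⁻¹ * Pz * G₂) =
          C (f₂.eval a)⁻¹ * (X 0 ^ ram f₁ f₂ a * Pz) * G₂ := by ring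
      have e4 : X 1 ^ ram g₁ g₂ b * (C (-(g₂.eval b)⁻¹) * Rz * F₂) =
          C (-(g₂.eval b)⁻¹) * (X 1 ^ ram g₁ g₂ b * Rz) * F₂ := by ring
      rw [e3, e4, ← e1, ← e2, C_neg]
      linear_combination (-(F₁ * G₂)) * i1 + (F₂ * G₁) * i2 + (F₂ * G₂) * i3

end Pool.Agent.Lib.MP387a85.IN
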