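import Pool.Agent.Lib.MP_387a85_ag.IN.Spec

/-!
# Module NON: the coefficients of the strict transform at `none`
-/

set_option autoImplicit false

namespace Pool.Agent.Lib.MP387a85.IN

open MvPolynomial

namespace NONM

lemma key (K : Type) [Field K] (a : Fin 2 →₀ ℕ) :
    (X 0 * X 1 : MvPolynomial (Fin 2) K) ^ a 0 * (X 1 : MvPolynomial (Fin 2) K) ^ a 1 =
      monomial (Finsupp.single 0 (a 0) + Finsupp.single 1 (a 0 + a 1)) 1 := by
  rw [mul_pow, mul_assoc, ← pow_add, X_pow_eq_monomial, X_pow_eq_monomial, monomial_mul, one_mul]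

lemma exps (a e : Fin 2 →₀ ℕ) (m : ℕ) :
    (Finsupp.single 0 (a 0) + Finsupp.single 1 (a 0 + a 1) = Finsupp.single 1 m + e) ↔
      (a 0 = e 0 ∧ a 0 + a 1 = m + e 1) := by
  rw [Finsupp.ext_iff, Fin.forall_fin_two]
  simp

end NONM

theorem specNON : SpecNON := by
  intro K _ g e
  unfold strict
  rw [coeff_divMonomial, aeval_def, eval₂_eq', coeff_sum, Finset.sum_filter]
  refine Finset.sum_congr rfl (fun a _ => ?_)
  rw [Fin.prod_univ_two]
  change coeff _ ((algebraMap K (MvPolynomial (Fin 2) K)) (coeff a g) *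
    ((X 0 * X 1 : MvPolynomial (Fin 2) K) ^ a 0 * (X 1 : MvPolynomial (Fin 2) K) ^ a 1)) = _
  rw [NONM.key, algebraMap_eq, C_mul_monomial, mul_one, coeff_monomial]
  simp only [NONM.exps]

end Pool.Agent.Lib.MP387a85.IN
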