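import Pool.Agent.Lib.MP_387a85_ag.IN.Spec

/-!
# RNG: the strict transform outside the toric points
-/

set_option autoImplicit false

namespace Pool.Agent.Lib.MP387a85.IN

open MvPolynomial

namespace RNGM

variable {K : Type} [Field K]

theorem mult_le {g : MvPolynomial (Fin 2) K} {a : Fin 2 →₀ ℕ} (ha : a ∈ g.support) :
    mult g ≤ a 0 + a 1 := Nat.sInf_le ⟨a, ha, rfl⟩

theorem mult_mem {g : MvPolynomial (Fin 2) K} (hg : g ≠ 0) :
    ∃ a ∈ g.support, a 0 + a 1 = mult g := by
  have hne : {n : ℕ | ∃ a ∈ g.support, a 0 + a 1 = n}.Nonempty := by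
    obtain ⟨a, ha⟩ := MvPolynomial.support_nonempty.2 hg
    exact ⟨_, a, ha, rfl⟩
  exact Nat.sInf_mem hne

/-- the exponents of the lowest terms -/
noncomputable def low (g : MvPolynomial (Fin 2) K) : Finset (Fin 2 →₀ ℕ) :=
  g.support.filter fun a => a 0 + a 1 = mult g

/-- the lowest form, `X 0 = 1` -/
noncomputable def R (g : MvPolynomial (Fin 2) K) : Polynomial K :=
  ∑ a ∈ low g, Polynomial.C (coeff a g) * Polynomial.X ^ (a 1)

theorem inj_low {g : MvPolynomial (Fin 2) K} {a b : Fin 2 →₀ ℕ} (ha : a ∈ low g) (hb : b ∈ low g)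
    (h : a 1 = b 1) : a = b := by
  have h1 := (Finset.mem_filter.1 ha).2
  have h2 := (Finset.mem_filter.1 hb).2
  ext i
  fin_cases i
  · show a 0 = b 0
    omega
  · exact h

theorem coeff_R (g : MvPolynomial (Fin 2) K) (j : ℕ) :
    (R g).coeff j = ∑ a ∈ low g, if a 1 = j then coeff a g else 0 := by
  unfold R
  rw [Polynomial.finsetSum_coeff]
  refine Finset.sum_congr rfl fun a _ => ?_
  rw [Polynomial.coeff_C_mul, Polynomial.coeff_X_pow]
  by_cases h : a 1 = j
  · rw [if_pos h, if_pos h.symm, mul_one]
  · rw [if_neg h, if_neg (fun h' => h h'.symm), mul_zero]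

theorem coeff_R_mem {g : MvPolynomial (Fin 2) K} {a : Fin 2 →₀ ℕ} (ha : a ∈ low g) :
    (R g).coeff (a 1) = coeff a g := by
  rw [coeff_R, Finset.sum_eq_single a]
  · rw [if_pos rfl]
  · intro b hb hba
    rw [if_neg fun h => hba (inj_low hb ha h)]
  · intro h
    exact absurd ha h

theorem R_ne {g : MvPolynomial (Fin 2) K} (hg : g ≠ 0) : R g ≠ 0 := by
  obtain ⟨a, ha, hm⟩ := mult_mem hg
  have hal : a ∈ low g := Finset.mem_filter.2 ⟨ha, hm⟩
  intro h0
  have h1 := coeff_R_mem hal
  rw [h0, Polynomial.coeff_zero] at h1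
  exact (mem_support_iff.1 ha) h1.symm

theorem supp_R (g : MvPolynomial (Fin 2) K) : (R g).support ⊆ (low g).image fun a => a 1 := by
  intro j hj
  rw [Polynomial.mem_support_iff, coeff_R] at hj
  obtain ⟨a, ha, hne⟩ := Finset.exists_ne_zero_of_sum_ne_zero hj
  rw [Finset.mem_image]
  refine ⟨a, ha, ?_⟩
  by_contra h
  exact hne (if_neg h)

theorem card_R (g : MvPolynomial (Fin 2) K) : (R g).support.card ≤ g.support.card :=
  (Finset.card_le_card (supp_R g)).trans (Finset.card_image_le.trans
    (Finset.card_le_card (Finset.filter_subset _ _)))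

theorem deg_R (g : MvPolynomial (Fin 2) K) : (R g).natDegree ≤ mult g := by
  rw [Polynomial.natDegree_le_iff_coeff_eq_zero]
  intro j hj
  by_contra h
  have h1 := supp_R g (Polynomial.mem_support_iff.2 h)
  rw [Finset.mem_image] at h1
  obtain ⟨a, ha, rfl⟩ := h1
  have h2 := (Finset.mem_filter.1 ha).2
  omega

/-- the monomial `(0, j)` -/
noncomputable def e01 (j : ℕ) : Fin 2 →₀ ℕ := Finsupp.single 1 j

theorem e01_zero (j : ℕ) : e01 j 0 = 0 := by
  unfold e01
  rw [Finsupp.single_apply, if_neg (by decide)]

theorem e01_one (j : ℕ) : e01 j 1 = j := by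
  unfold e01
  rw [Finsupp.single_apply, if_pos rfl]

theorem coeff_some (hSOM : SpecSOM) (g : MvPolynomial (Fin 2) K) (c : K) (j : ℕ) :
    coeff (e01 j) (strict g (some c))
      = ((R g).comp (Polynomial.X + Polynomial.C c)).coeff j := by
  rw [hSOM K g c (e01 j), e01_zero, e01_one, add_zero]
  unfold R
  rw [Polynomial.sum_comp, Polynomial.finsetSum_coeff]
  refine Finset.sum_congr rfl fun a _ => ?_
  rw [Polynomial.mul_comp, Polynomial.C_comp, Polynomial.X_pow_comp, Polynomial.coeff_C_mul]

theorem comp_ne {P : Polynomial K} (hP : P ≠ 0) (c : K) :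
    P.comp (Polynomial.X + Polynomial.C c) ≠ 0 := by
  intro h
  apply hP
  have h1 : (P.comp (Polynomial.X + Polynomial.C c)).comp (Polynomial.X - Polynomial.C c) = 0 := by
    rw [h, Polynomial.zero_comp]
  rw [Polynomial.comp_assoc] at h1
  have h2 : (Polynomial.X + Polynomial.C c : Polynomial K).comp (Polynomial.X - Polynomial.C c)
      = Polynomial.X := by
    rw [Polynomial.add_comp, Polynomial.X_comp, Polynomial.C_comp]
    ring
  rw [h2, Polynomial.comp_X] at h1
  exact h1

theorem mult_le_of_coeff {g : MvPolynomial (Fin 2) K} {j : ℕ} (h : coeff (e01 j) g ≠ 0) :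
    mult g ≤ j := by
  have h1 := mult_le (mem_support_iff.2 h)
  rw [e01_zero, e01_one] at h1
  omega

end RNGM

open RNGM in
theorem specRNG (hSOM : SpecSOM) (hNON : SpecNON) : SpecRNG := by
  intro K _ _ g hg
  refine ⟨fun δ => ?_, fun c hc => ?_⟩
  · rcases δ with _ | c
    · obtain ⟨a, ha, hm⟩ := mult_mem hg
      have h1 : coeff (Finsupp.single 0 (a 0)) (strict g none) = coeff a g := by
        rw [hNON K g (Finsupp.single 0 (a 0))]
        have e0 : (Finsupp.single (0 : Fin 2) (a 0)) 0 = a 0 := by
          rw [Finsupp.single_apply, if_pos rfl]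
        have e1 : (Finsupp.single (0 : Fin 2) (a 0)) 1 = 0 := by
          rw [Finsupp.single_apply, if_neg (by decide)]
        rw [e0, e1, add_zero]
        rw [Finset.sum_eq_single_of_mem a (Finset.mem_filter.2 ⟨ha, rfl, hm⟩)]
        intro b hb hba
        exfalso
        apply hba
        obtain ⟨_, hb1, hb2⟩ := Finset.mem_filter.1 hb
        ext i
        fin_cases i
        · exact hb1
        · show b 1 = a 1
          omega
      have h2 : coeff (Finsupp.single 0 (a 0)) (strict g none) ≠ 0 := by
        rw [h1]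
        exact mem_support_iff.1 ha
      refine ⟨fun h => h2 (by rw [h, coeff_zero]), ?_⟩
      have h3 := mult_le (mem_support_iff.2 h2)
      rw [Finsupp.single_apply, if_pos rfl, Finsupp.single_apply, if_neg (by decide)] at h3
      omega
    · have h1 := comp_ne (R_ne hg) c
      have h2 : ((R g).comp (Polynomial.X + Polynomial.C c)).natDegree ≤ mult g := by
        rw [Polynomial.natDegree_comp, Polynomial.natDegree_X_add_C, mul_one]
        exact deg_R g
      have h3 : coeff (e01 ((R g).comp (Polynomial.X + Polynomial.C c)).natDegree)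
          (strict g (some c)) ≠ 0 := by
        rw [coeff_some hSOM]
        exact Polynomial.leadingCoeff_ne_zero.2 h1
      refine ⟨fun h => h3 (by rw [h, coeff_zero]), ?_⟩
      exact (mult_le_of_coeff h3).trans h2
  · by_contra hcon
    push Not at hcon
    have hz : ∀ j < g.support.card, ((R g).comp (Polynomial.X + Polynomial.C c)).coeff j = 0 := by
      intro j hj
      by_contra h
      rw [← coeff_some hSOM] at h
      have := mult_le_of_coeff h
      omega
    have hd : (Polynomial.X : Polynomial K) ^ g.support.card ∣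
        (R g).comp (Polynomial.X + Polynomial.C c) := Polynomial.X_pow_dvd_iff.2 hz
    obtain ⟨q, hq⟩ := hd
    have h1 : (R g).comp (Polynomial.C c * Polynomial.X)
        = (Polynomial.X - Polynomial.C 1) ^ g.support.card *
          (Polynomial.C (c ^ g.support.card) * q.comp (Polynomial.C c * Polynomial.X
            - Polynomial.C c)) := by
      have e1 : (R g).comp (Polynomial.C c * Polynomial.X)
          = ((R g).comp (Polynomial.X + Polynomial.C c)).comp
            (Polynomial.C c * Polynomial.X - Polynomial.C c) := by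
        rw [Polynomial.comp_assoc]
        congr 1
        rw [Polynomial.add_comp, Polynomial.X_comp, Polynomial.C_comp]
        ring
      rw [e1, hq, Polynomial.mul_comp, Polynomial.X_pow_comp]
      have e2 : (Polynomial.C c * Polynomial.X - Polynomial.C c : Polynomial K)
          = Polynomial.C c * (Polynomial.X - Polynomial.C 1) := by
        rw [mul_sub, Polynomial.C_1, mul_one]
      rw [e2, mul_pow, ← Polynomial.C_pow]
      ring
    have hcoef : ∀ j, ((R g).comp (Polynomial.C c * Polynomial.X)).coeff j
        = (R g).coeff j * c ^ j := by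
      intro j
      exact Polynomial.comp_C_mul_X_coeff
    have hne : (R g).comp (Polynomial.C c * Polynomial.X) ≠ 0 := by
      intro h0
      apply R_ne hg
      ext j
      have h2 := hcoef j
      rw [h0, Polynomial.coeff_zero] at h2
      rw [Polynomial.coeff_zero]
      exact (mul_eq_zero.1 h2.symm).resolve_right (pow_ne_zero _ hc)
    have hcard : ((R g).comp (Polynomial.C c * Polynomial.X)).support.card ≤ g.support.card := by
      refine (Finset.card_le_card ?_).trans (card_R g)
      intro j hj
      rw [Polynomial.mem_support_iff, hcoef] at hj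
      exact Polynomial.mem_support_iff.2 (left_ne_zero_of_mul hj)
    exact not_dvd _ _ hne hcard ⟨_, h1⟩

end Pool.Agent.Lib.MP387a85.IN
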