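import Pool.Agent.Lib.MP_387a85_ag.IN.Spec2

/-! # Module SM2: the toric infinitely near points of `x ^ A U + y ^ B W` -/

set_option autoImplicit false

namespace Pool.Agent.Lib.MP387a85.IN

open MvPolynomial

namespace SM2M

lemma sum_zero (hZR : SpecZR2) (K : Type) [Field K] (n : ℕ) (h : MvPolynomial (Fin 2) K)
    (hh : coeff 0 h ≠ 0) : ((words K n).map (fun w => multAt h w ^ 2)).sum = 0 := by
  have e : (fun w => multAt h w ^ 2) = fun _ => 0 := by
    funext w
    rw [hZR K h hh w]
    rfl
  rw [e]
  simp

end SM2M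

open SM2M in
theorem specSM2 (hZR : SpecZR2) (hST : SpecSTR2) : SpecSM2 := by
  intro K _ n
  induction n with
  | zero =>
    intro U W A B _ _ _ _
    simp [words]
  | succ n ih =>
    intro U W A B hU hW hA hB
    obtain ⟨-, hm, h1, h2, h3, h4, h5⟩ := hST K U W A B hU hW hA hB
    set g : MvPolynomial (Fin 2) K := X 0 ^ A * U + X 1 ^ B * W with hg
    have hsum : ((words K (n + 1)).map (fun w => multAt g w ^ 2)).sum =
        mult g ^ 2 + (((words K n).map (fun w => multAt (strict g (some 0)) w ^ 2)).sum +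
          ((words K n).map (fun w => multAt (strict g none) w ^ 2)).sum) := by
      show (([] :: ((words K n).map (fun w => some 0 :: w) ++
        (words K n).map (fun w => none :: w))).map (fun w => multAt g w ^ 2)).sum = _
      rw [List.map_cons, List.sum_cons, List.map_append, List.sum_append, List.map_map,
        List.map_map]
      rfl
    rw [hsum, hm]
    rcases lt_trichotomy A B with hAB | hAB | hAB
    · obtain ⟨U', W', hU', hW', hs⟩ := h3 hAB
      rw [sum_zero hZR K n _ (h4 hAB 0), hs]
      have i1 := ih U' W' A (B - A) hU' hW' hA (by omega)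
      rw [Nat.min_eq_left hAB.le, zero_add]
      obtain ⟨p, hp⟩ := Nat.exists_eq_add_of_le hAB.le
      rw [hp, Nat.add_sub_cancel_left] at i1
      rw [hp, Nat.add_sub_cancel_left]
      calc A ^ 2 + _ ≤ A ^ 2 + A * p := Nat.add_le_add_left i1 _
        _ = A * (A + p) := by ring
    · obtain ⟨h6, h7, -⟩ := h5 hAB
      rw [sum_zero hZR K n _ h6, sum_zero hZR K n _ h7, hAB, Nat.min_self]
      exact le_of_eq (by ring)
    · obtain ⟨U', W', hU', hW', hs⟩ := h1 hAB 0
      rw [C_0, add_zero] at hs
      rw [sum_zero hZR K n _ (h2 hAB), hs]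
      have i1 := ih U' W' (A - B) B hU' hW' (by omega) hB
      rw [Nat.min_eq_right hAB.le, add_zero]
      obtain ⟨p, hp⟩ := Nat.exists_eq_add_of_le hAB.le
      rw [hp, Nat.add_sub_cancel_left] at i1
      rw [hp, Nat.add_sub_cancel_left]
      calc B ^ 2 + _ ≤ B ^ 2 + p * B := Nat.add_le_add_left i1 _
        _ = (B + p) * B := by ring

end Pool.Agent.Lib.MP387a85.IN
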