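import Pool.Agent.Lib.MP_387a85_ag.IN.Spec

/-!
# SOM: the coefficients of the strict transform
-/

set_option autoImplicit false

namespace Pool.Agent.Lib.MP387a85.IN

open MvPolynomial

namespace SOMM

variable {K : Type} [Field K]

lemma mono_eq (n k : ℕ) (r : K) :
    ((X 0 : MvPolynomial (Fin 2) K) ^ n * (C r * X 1 ^ k)) =
      monomial (Finsupp.single 0 n + Finsupp.single 1 k) r := by
  rw [X_pow_eq_monomial, X_pow_eq_monomial, C_mul_monomial, monomial_mul, mul_one, one_mul]

lemma single_eq (n k : ℕ) (e : Fin 2 →₀ ℕ) :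
    Finsupp.single 0 n + Finsupp.single 1 k = e ↔ e 0 = n ∧ k = e 1 := by
  constructor
  · rintro rfl
    constructor
    · simp
    · simp
  · rintro ⟨h0, h1⟩
    ext i
    fin_cases i
    · simp [h0]
    · simp [h1]

lemma coeff_aeval (n : ℕ) (h : Polynomial K) (e : Fin 2 →₀ ℕ) :
    coeff e ((X 0 : MvPolynomial (Fin 2) K) ^ n * Polynomial.aeval (X 1 : MvPolynomial (Fin 2) K) h) =
      if e 0 = n then h.coeff (e 1) else 0 := by
  induction h using Polynomial.induction_on' with
  | add p q hp hq =>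
    rw [map_add, mul_add, coeff_add, hp, hq]
    split_ifs
    · rw [Polynomial.coeff_add]
    · rw [add_zero]
  | monomial k r =>
    rw [Polynomial.aeval_monomial]
    have h1 : (algebraMap K (MvPolynomial (Fin 2) K)) r = C r := rfl
    rw [h1, mono_eq, coeff_monomial, Polynomial.coeff_monomial]
    by_cases h0 : e 0 = n
    · rw [if_pos h0]
      by_cases h2 : k = e 1
      · rw [if_pos h2, if_pos ((single_eq n k e).2 ⟨h0, h2⟩)]
      · rw [if_neg h2, if_neg fun h => h2 ((single_eq n k e).1 h).2]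
    · rw [if_neg h0, if_neg fun h => h0 ((single_eq n k e).1 h).1]

lemma aeval_eq (g : MvPolynomial (Fin 2) K) (c : K) :
    aeval ![(X 0 : MvPolynomial (Fin 2) K), X 0 * (X 1 + C c)] g =
      ∑ a ∈ g.support, C (coeff a g) * (X 0 ^ (a 0 + a 1) *
        Polynomial.aeval (X 1 : MvPolynomial (Fin 2) K)
          ((Polynomial.X + Polynomial.C c : Polynomial K) ^ (a 1))) := by
  rw [aeval_def, eval₂_eq']
  refine Finset.sum_congr rfl fun a _ => ?_
  have h1 : (algebraMap K (MvPolynomial (Fin 2) K)) (coeff a g) = C (coeff a g) := rfl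
  have h2 : Polynomial.aeval (X 1 : MvPolynomial (Fin 2) K)
      ((Polynomial.X + Polynomial.C c : Polynomial K) ^ (a 1)) = (X 1 + C c) ^ (a 1) := by
    rw [map_pow, map_add, Polynomial.aeval_X, Polynomial.aeval_C]
    rfl
  rw [h1, h2, Fin.prod_univ_two]
  show C (coeff a g) * (X 0 ^ a 0 * (X 0 * (X 1 + C c)) ^ a 1) = _
  rw [mul_pow, pow_add, mul_assoc (X 0 ^ a 0)]

end SOMM

open SOMM in
theorem specSOM : SpecSOM := by
  intro K _ g c e
  show coeff e ((aeval ![(X 0 : MvPolynomial (Fin 2) K), X 0 * (X 1 + C c)] g).divMonomial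
      (Finsupp.single 0 (mult g))) = _
  rw [coeff_divMonomial, aeval_eq, coeff_sum, Finset.sum_filter]
  refine Finset.sum_congr rfl fun a _ => ?_
  rw [coeff_C_mul, coeff_aeval]
  have h0 : (Finsupp.single (0 : Fin 2) (mult g) + e) 0 = mult g + e 0 := by simp
  have h1 : (Finsupp.single (0 : Fin 2) (mult g) + e) 1 = e 1 := by simp
  rw [h0, h1]
  by_cases h : a 0 + a 1 = mult g + e 0
  · rw [if_pos h, if_pos h.symm]
  · rw [if_neg h, if_neg fun h2 => h h2.symm, mul_zero]

end Pool.Agent.Lib.MP387a85.IN
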