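import Pool.Agent.Lib.MP_387a85_ag.IN.Spec2

set_option autoImplicit false

namespace Pool.Agent.Lib.MP387a85.IN

open MvPolynomial

namespace STR2M

variable {K : Type} [Field K]

lemma cc_aeval (v : Fin 2 → MvPolynomial (Fin 2) K) (hv : ∀ i, constantCoeff (v i) = 0)
    (p : MvPolynomial (Fin 2) K) : coeff 0 (aeval v p) = coeff 0 p := by
  have h : constantCoeff (aeval v p) = constantCoeff p := by
    induction p using MvPolynomial.induction_on with
    | C a => simp
    | add p q hp hq => rw [map_add, map_add, map_add, hp, hq]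
    | mul_X p i hp =>
      rw [map_mul, map_mul, map_mul, aeval_X, hv i]
      simp
  exact h

lemma coeff_pow_mul (i : Fin 2) (n : ℕ) (p : MvPolynomial (Fin 2) K) (a : Fin 2 →₀ ℕ) :
    coeff a (X i ^ n * p) =
      if Finsupp.single i n ≤ a then coeff (a - Finsupp.single i n) p else 0 := by
  rw [X_pow_eq_monomial, coeff_monomial_mul']
  simp

lemma coeff_left (U W : MvPolynomial (Fin 2) K) (A B : ℕ) (hB : 1 ≤ B) :
    coeff (Finsupp.single 0 A) (X 0 ^ A * U + X 1 ^ B * W) = coeff 0 U := by
  rw [coeff_add, coeff_pow_mul, coeff_pow_mul, if_pos (le_refl _), tsub_self, if_neg, add_zero]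
  intro h
  have := h 1
  simp at this
  omega

lemma coeff_right (U W : MvPolynomial (Fin 2) K) (A B : ℕ) (hA : 1 ≤ A) :
    coeff (Finsupp.single 1 B) (X 0 ^ A * U + X 1 ^ B * W) = coeff 0 W := by
  rw [coeff_add, coeff_pow_mul, coeff_pow_mul, if_neg, if_pos (le_refl _), tsub_self, zero_add]
  intro h
  have := h 0
  simp at this
  omega

lemma deg_of_coeff (U W : MvPolynomial (Fin 2) K) (A B : ℕ) (a : Fin 2 →₀ ℕ)
    (h : coeff a (X 0 ^ A * U + X 1 ^ B * W) ≠ 0) : min A B ≤ a 0 + a 1 := by
  rw [coeff_add, coeff_pow_mul, coeff_pow_mul] at h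
  by_cases h0 : Finsupp.single 0 A ≤ a
  · have := h0 0
    simp at this
    omega
  · by_cases h1 : Finsupp.single 1 B ≤ a
    · have := h1 1
      simp at this
      omega
    · rw [if_neg h0, if_neg h1, add_zero] at h
      exact absurd rfl h

lemma mult_eq (U W : MvPolynomial (Fin 2) K) (A B : ℕ) (hU : coeff 0 U ≠ 0) (hW : coeff 0 W ≠ 0)
    (hA : 1 ≤ A) (hB : 1 ≤ B) : mult (X 0 ^ A * U + X 1 ^ B * W) = min A B := by
  unfold mult
  have hmA : A ∈ {n : ℕ | ∃ a ∈ (X 0 ^ A * U + X 1 ^ B * W).support, a 0 + a 1 = n} := by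
    refine ⟨Finsupp.single 0 A, ?_, by simp⟩
    rw [mem_support_iff, coeff_left U W A B hB]
    exact hU
  have hmB : B ∈ {n : ℕ | ∃ a ∈ (X 0 ^ A * U + X 1 ^ B * W).support, a 0 + a 1 = n} := by
    refine ⟨Finsupp.single 1 B, ?_, by simp⟩
    rw [mem_support_iff, coeff_right U W A B hA]
    exact hW
  apply le_antisymm
  · exact le_min (Nat.sInf_le hmA) (Nat.sInf_le hmB)
  · apply le_csInf ⟨A, hmA⟩
    rintro n ⟨a, ha, rfl⟩
    exact deg_of_coeff U W A B a (mem_support_iff.1 ha)

lemma div_pow (i : Fin 2) (n : ℕ) (q : MvPolynomial (Fin 2) K) :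
    (X i ^ n * q).divMonomial (Finsupp.single i n) = q := by
  rw [X_pow_eq_monomial]
  exact divMonomial_monomial_mul _ _

lemma strict_some (U W : MvPolynomial (Fin 2) K) (A B m : ℕ) (c : K)
    (hm : mult (X 0 ^ A * U + X 1 ^ B * W) = m) (hmA : m ≤ A) (hmB : m ≤ B) :
    strict (X 0 ^ A * U + X 1 ^ B * W) (some c) =
      X 0 ^ (A - m) * (aeval ![(X 0 : MvPolynomial (Fin 2) K), X 0 * (X 1 + C c)] U) +
        X 0 ^ (B - m) * (X 1 + C c) ^ B *
          (aeval ![(X 0 : MvPolynomial (Fin 2) K), X 0 * (X 1 + C c)] W) := by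
  have hs : strict (X 0 ^ A * U + X 1 ^ B * W) (some c) =
      (aeval ![(X 0 : MvPolynomial (Fin 2) K), X 0 * (X 1 + C c)]
        (X 0 ^ A * U + X 1 ^ B * W)).divMonomial (Finsupp.single 0 m) := by
    rw [← hm]
    rfl
  rw [hs]
  have h1 : aeval ![(X 0 : MvPolynomial (Fin 2) K), X 0 * (X 1 + C c)]
      (X 0 ^ A * U + X 1 ^ B * W) =
      X 0 ^ m * (X 0 ^ (A - m) * (aeval ![(X 0 : MvPolynomial (Fin 2) K), X 0 * (X 1 + C c)] U) +
        X 0 ^ (B - m) * (X 1 + C c) ^ B *
          (aeval ![(X 0 : MvPolynomial (Fin 2) K), X 0 * (X 1 + C c)] W)) := by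
    obtain ⟨a, rfl⟩ := Nat.exists_eq_add_of_le hmA
    obtain ⟨b, rfl⟩ := Nat.exists_eq_add_of_le hmB
    simp only [map_add, map_mul, map_pow, aeval_X, Matrix.cons_val_zero, Matrix.cons_val_one,
      Nat.add_sub_cancel_left, mul_pow]
    ring
  rw [h1, div_pow]

lemma strict_none (U W : MvPolynomial (Fin 2) K) (A B m : ℕ)
    (hm : mult (X 0 ^ A * U + X 1 ^ B * W) = m) (hmA : m ≤ A) (hmB : m ≤ B) :
    strict (X 0 ^ A * U + X 1 ^ B * W) none =
      X 0 ^ A * (X 1 ^ (A - m) * (aeval ![(X 0 * X 1 : MvPolynomial (Fin 2) K), X 1] U)) +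
        X 1 ^ (B - m) * (aeval ![(X 0 * X 1 : MvPolynomial (Fin 2) K), X 1] W) := by
  have hs : strict (X 0 ^ A * U + X 1 ^ B * W) none =
      (aeval ![(X 0 * X 1 : MvPolynomial (Fin 2) K), X 1]
        (X 0 ^ A * U + X 1 ^ B * W)).divMonomial (Finsupp.single 1 m) := by
    rw [← hm]
    rfl
  rw [hs]
  have h1 : aeval ![(X 0 * X 1 : MvPolynomial (Fin 2) K), X 1] (X 0 ^ A * U + X 1 ^ B * W) =
      X 1 ^ m * (X 0 ^ A * (X 1 ^ (A - m) *
        (aeval ![(X 0 * X 1 : MvPolynomial (Fin 2) K), X 1] U)) +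
        X 1 ^ (B - m) * (aeval ![(X 0 * X 1 : MvPolynomial (Fin 2) K), X 1] W)) := by
    obtain ⟨a, rfl⟩ := Nat.exists_eq_add_of_le hmA
    obtain ⟨b, rfl⟩ := Nat.exists_eq_add_of_le hmB
    simp only [map_add, map_mul, map_pow, aeval_X, Matrix.cons_val_zero, Matrix.cons_val_one,
      Nat.add_sub_cancel_left]
    ring
  rw [h1, div_pow]

lemma cc_some (c : K) (p : MvPolynomial (Fin 2) K) :
    coeff 0 (aeval ![(X 0 : MvPolynomial (Fin 2) K), X 0 * (X 1 + C c)] p) = coeff 0 p := by
  apply cc_aeval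
  intro i
  fin_cases i <;> simp

lemma cc_none (p : MvPolynomial (Fin 2) K) :
    coeff 0 (aeval ![(X 0 * X 1 : MvPolynomial (Fin 2) K), X 1] p) = coeff 0 p := by
  apply cc_aeval
  intro i
  fin_cases i <;> simp

/-- Restriction to the second axis. -/
lemma coeff_axis (p : MvPolynomial (Fin 2) K) (n : ℕ) :
    coeff (Finsupp.single 1 n) p =
      (aeval ![(0 : Polynomial K), Polynomial.X] p : Polynomial K).coeff n := by
  induction p using MvPolynomial.induction_on' with
  | monomial s a =>
    rw [coeff_monomial, aeval_monomial, Finsupp.prod_fintype _ _ (by simp), Fin.prod_univ_two]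
    simp only [Matrix.cons_val_zero, Matrix.cons_val_one, Polynomial.algebraMap_eq,
      Polynomial.coeff_C_mul]
    by_cases h0 : s 0 = 0
    · rw [h0, pow_zero, one_mul, Polynomial.coeff_X_pow]
      by_cases h1 : n = s 1
      · have hs : s = Finsupp.single 1 n := by
          ext i
          fin_cases i
          · simpa using h0
          · simpa using h1.symm
        rw [if_pos hs, if_pos h1, mul_one]
      · rw [if_neg, if_neg h1, mul_zero]
        intro hs
        apply h1
        rw [hs]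
        simp
    · rw [if_neg, zero_pow h0, zero_mul, Polynomial.coeff_zero, mul_zero]
      intro hs
      apply h0
      rw [hs]
      simp
  | add p q hp hq => rw [coeff_add, map_add, Polynomial.coeff_add, hp, hq]

lemma axis_some (c : K) (p : MvPolynomial (Fin 2) K) :
    (aeval ![(0 : Polynomial K), Polynomial.X]
      (aeval ![(X 0 : MvPolynomial (Fin 2) K), X 0 * (X 1 + C c)] p) : Polynomial K) =
      Polynomial.C (coeff 0 p) := by
  induction p using MvPolynomial.induction_on with
  | C a => simp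
  | add p q hp hq => rw [map_add, map_add, hp, hq, coeff_add, map_add]
  | mul_X p i hp =>
    have h0 : coeff 0 (p * X i) = 0 := by
      have : constantCoeff (p * X i) = 0 := by simp
      exact this
    rw [h0, map_mul, map_mul, aeval_X, map_zero]
    fin_cases i <;> simp

lemma coeff_one (U W : MvPolynomial (Fin 2) K) (A : ℕ) (c : K) :
    coeff (Finsupp.single 1 1)
      (aeval ![(X 0 : MvPolynomial (Fin 2) K), X 0 * (X 1 + C c)] U +
        (X 1 + C c) ^ A * aeval ![(X 0 : MvPolynomial (Fin 2) K), X 0 * (X 1 + C c)] W) =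
      c ^ (A - 1) * (A : K) * coeff 0 W := by
  rw [coeff_axis, map_add, map_mul, map_pow, axis_some, axis_some, Polynomial.coeff_add,
    Polynomial.coeff_mul_C, Polynomial.coeff_C]
  have h : (aeval ![(0 : Polynomial K), Polynomial.X] (X 1 + C c) : Polynomial K) =
      Polynomial.X + Polynomial.C c := by
    simp
  rw [h, Polynomial.coeff_X_add_C_pow]
  simp

end STR2M

theorem specSTR2 : SpecSTR2 := by
  intro K _ U W A B hU hW hA hB
  have hmult := STR2M.mult_eq U W A B hU hW hA hB
  refine ⟨?_, hmult, ?_, ?_, ?_, ?_, ?_⟩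
  · intro h
    have h1 := STR2M.coeff_left U W A B hB
    rw [h, coeff_zero] at h1
    exact hU h1.symm
  · intro hBA c
    rw [min_eq_right hBA.le] at hmult
    refine ⟨aeval ![(X 0 : MvPolynomial (Fin 2) K), X 0 * (X 1 + C c)] U,
      aeval ![(X 0 : MvPolynomial (Fin 2) K), X 0 * (X 1 + C c)] W, ?_, ?_, ?_⟩
    · rw [STR2M.cc_some]
      exact hU
    · rw [STR2M.cc_some]
      exact hW
    · rw [STR2M.strict_some U W A B B c hmult hBA.le (le_refl B), Nat.sub_self, pow_zero, one_mul]
  · intro hBA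
    rw [min_eq_right hBA.le] at hmult
    rw [STR2M.strict_none U W A B B hmult hBA.le (le_refl B), Nat.sub_self, pow_zero, one_mul,
      coeff_add, STR2M.coeff_pow_mul, if_neg, zero_add, STR2M.cc_none]
    · exact hW
    · intro h
      have := h 0
      simp at this
      omega
  · intro hAB
    rw [min_eq_left hAB.le] at hmult
    refine ⟨aeval ![(X 0 * X 1 : MvPolynomial (Fin 2) K), X 1] U,
      aeval ![(X 0 * X 1 : MvPolynomial (Fin 2) K), X 1] W, ?_, ?_, ?_⟩
    · rw [STR2M.cc_none]
      exact hU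
    · rw [STR2M.cc_none]
      exact hW
    · rw [STR2M.strict_none U W A B A hmult (le_refl A) hAB.le, Nat.sub_self, pow_zero, one_mul]
  · intro hAB c
    rw [min_eq_left hAB.le] at hmult
    rw [STR2M.strict_some U W A B A c hmult (le_refl A) hAB.le, Nat.sub_self, pow_zero, one_mul,
      coeff_add, mul_assoc, STR2M.coeff_pow_mul, if_neg, add_zero, STR2M.cc_some]
    · exact hU
    · intro h
      have := h 0
      simp at this
      omega
  · intro hAB
    subst hAB
    rw [min_self] at hmult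
    refine ⟨?_, ?_, ?_⟩
    · rw [STR2M.strict_none U W A A A hmult (le_refl A) (le_refl A), Nat.sub_self, pow_zero,
        one_mul, one_mul, coeff_add, STR2M.coeff_pow_mul, if_neg, zero_add, STR2M.cc_none]
      · exact hW
      · intro h
        have := h 0
        simp at this
        omega
    · rw [STR2M.strict_some U W A A A 0 hmult (le_refl A) (le_refl A), Nat.sub_self, pow_zero,
        one_mul, one_mul, map_zero, add_zero, coeff_add, STR2M.coeff_pow_mul, if_neg, add_zero]
      · have h := STR2M.cc_some (0 : K) U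
        rw [map_zero, add_zero] at h
        rw [h]
        exact hU
      · intro h
        have := h 1
        simp at this
        omega
    · intro c hc hAK
      have h1 : coeff (Finsupp.single 1 1) (strict (X 0 ^ A * U + X 1 ^ A * W) (some c)) ≠ 0 := by
        rw [STR2M.strict_some U W A A A c hmult (le_refl A) (le_refl A), Nat.sub_self, pow_zero,
          one_mul, one_mul, STR2M.coeff_one]
        exact mul_ne_zero (mul_ne_zero (pow_ne_zero _ hc) hAK) hW
      refine ⟨?_, ?_⟩
      · intro h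
        rw [h, coeff_zero] at h1
        exact h1 rfl
      · unfold mult
        apply Nat.sInf_le
        refine ⟨Finsupp.single 1 1, mem_support_iff.2 h1, by simp⟩

end Pool.Agent.Lib.MP387a85.IN
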