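import Pool.Agent.Lib.MP_387a85_ag.IN.Spec

/-! # Module SUM: all toric infinitely near points -/

set_option autoImplicit false

namespace Pool.Agent.Lib.MP387a85.IN

open MvPolynomial

namespace SUMM

lemma arith : ∀ m s0 s1 p q : ℕ, s0 + s1 = m →
    (m + p) * (m + q) = m ^ 2 + (p * s1 + s0 * q) + (s1 * q + p * s0 + p * q) := by
  rintro _ s0 s1 p q rfl
  ring

lemma mult_le {K : Type} [Field K] {g : MvPolynomial (Fin 2) K} {e : Fin 2 →₀ ℕ}
    (he : e ∈ g.support) : mult g ≤ e 0 + e 1 :=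
  Nat.sInf_le ⟨e, he, rfl⟩

lemma mult_att {K : Type} [Field K] {g : MvPolynomial (Fin 2) K} {e : Fin 2 →₀ ℕ}
    (he : e ∈ g.support) : ∃ s ∈ g.support, s 0 + s 1 = mult g := by
  have hne : {n : ℕ | ∃ a ∈ g.support, a 0 + a 1 = n}.Nonempty := ⟨_, e, he, rfl⟩
  exact Nat.sInf_mem hne

end SUMM

open SUMM in
theorem specSUM (hTOR : SpecTOR) : SpecSUM := by
  intro K _ n
  induction n with
  | zero =>
    intro g a b _ _
    simp [words]
  | succ n ih =>
    intro g a b ha hb
    obtain ⟨e1, he1, he1a, he1b⟩ := ha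
    obtain ⟨e2, he2, he2a, he2b⟩ := hb
    have hg : g ≠ 0 := by
      rintro rfl
      simp at he1
    obtain ⟨⟨h1, -⟩, ⟨h2, -⟩⟩ := hTOR K g hg
    obtain ⟨s, hs, hsm⟩ := mult_att he1
    have hma := mult_le he1
    have hmb := mult_le he2
    obtain ⟨f1, hf1, hf1a, hf1b⟩ := h1 e1 he1
    obtain ⟨f2, hf2, hf2a, hf2b⟩ := h1 s hs
    obtain ⟨f3, hf3, hf3a, hf3b⟩ := h2 s hs
    obtain ⟨f4, hf4, hf4a, hf4b⟩ := h2 e2 he2
    have hsum : ((words K (n + 1)).map (fun w => multAt g w ^ 2)).sum =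
        mult g ^ 2 + (((words K n).map (fun w => multAt (strict g (some 0)) w ^ 2)).sum +
          ((words K n).map (fun w => multAt (strict g none) w ^ 2)).sum) := by
      show (([] :: ((words K n).map (fun w => some 0 :: w) ++
        (words K n).map (fun w => none :: w))).map (fun w => multAt g w ^ 2)).sum = _
      rw [List.map_cons, List.sum_cons, List.map_append, List.sum_append, List.map_map,
        List.map_map]
      rfl
    rw [hsum]
    have i1 := ih (strict g (some 0)) (a - mult g) (s 1) ⟨f1, hf1, by omega, by omega⟩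
      ⟨f2, hf2, by omega, by omega⟩
    have i2 := ih (strict g none) (s 0) (b - mult g) ⟨f3, hf3, by omega, by omega⟩
      ⟨f4, hf4, by omega, by omega⟩
    obtain ⟨p, hp⟩ := Nat.exists_eq_add_of_le (show mult g ≤ a by omega)
    obtain ⟨q, hq⟩ := Nat.exists_eq_add_of_le (show mult g ≤ b by omega)
    rw [hp, Nat.add_sub_cancel_left] at i1
    rw [hq, Nat.add_sub_cancel_left] at i2
    rw [hp, hq, arith (mult g) (s 0) (s 1) p q hsm]
    omega

end Pool.Agent.Lib.MP387a85.IN
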