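import Mathlib

/-!
# MP_387a85_ag: curves with few monomials and infinitely near points

`f` is a ternary form of degree `d` with at most `t` monomials. An infinitely near point over a
point of the plane with local coordinates `(x, y)` is a word of directions: `some c` is the point
`y = c x` of the exceptional curve, `none` the point `x = 0`. `strict g δ` is the strict transform
of `g`, in the coordinates `(x, y/x - c)` or `(x/y, y)` at that point.

All modules are independent. File `Pool/Agent/Lib/MP_387a85_ag/IN/XXX.lean`, importing only this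
file, theorem `Pool.Agent.Lib.MP387a85.IN.specXXX (hYYY : SpecYYY) .. : SpecXXX` (hypotheses in the
order of USES), own lemmas in the namespace `XXXM`.
-/

set_option autoImplicit false

namespace Pool.Agent.Lib.MP387a85.IN

section univariate

open Polynomial

/-- A nonzero polynomial with at most `n` terms is not divisible by `(X - 1) ^ n`
(characteristic `0`). -/
theorem not_dvd {K : Type} [Field K] [CharZero K] (n : ℕ) : ∀ g : Polynomial K, g ≠ 0 →
    g.support.card ≤ n → ¬ (Polynomial.X - Polynomial.C 1) ^ n ∣ g := by
  induction n with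
  | zero =>
    intro g hg hc
    exact absurd (Polynomial.card_support_eq_zero.1 (Nat.le_zero.1 hc)) hg
  | succ n ih =>
    intro g hg hc hd
    have hne : g.support.Nonempty := Polynomial.support_nonempty.2 hg
    obtain ⟨k, hk⟩ := hne
    set h : K[X] := X * derivative g - C (k : K) * g with hh
    have hcoeff : ∀ i, h.coeff i = ((i : K) - k) * g.coeff i := by
      intro i
      rw [hh, coeff_sub, coeff_C_mul]
      rcases i with _ | i
      · simp
      · rw [coeff_X_mul, coeff_derivative]
        push_cast
        ring
    have hsupp : h.support ⊆ g.support.erase k := by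
      intro i hi
      rw [mem_support_iff, hcoeff] at hi
      rw [Finset.mem_erase, mem_support_iff]
      refine ⟨?_, right_ne_zero_of_mul hi⟩
      rintro rfl
      simp at hi
    have hcard : h.support.card ≤ n := by
      have := Finset.card_le_card hsupp
      rw [Finset.card_erase_of_mem hk] at this
      omega
    have hdiv : (X - C 1) ^ n ∣ h := by
      obtain ⟨q, rfl⟩ := hd
      have : (X - C 1 : K[X]) ^ n ∣ (X - C 1) ^ (n + 1) := pow_dvd_pow _ (Nat.le_succ n)
      rw [hh]
      apply dvd_sub
      · apply Dvd.dvd.mul_left
        rw [derivative_mul, derivative_X_sub_C_pow]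
        apply dvd_add
        · simp only [Nat.add_sub_cancel]
          exact Dvd.dvd.mul_right (Dvd.dvd.mul_left dvd_rfl _) _
        · exact this.mul_right _
      · exact (this.mul_right _).mul_left _
    by_cases h0 : h = 0
    · -- g is a monomial
      have hg1 : ∀ i, i ≠ k → g.coeff i = 0 := by
        intro i hi
        have := hcoeff i
        rw [h0, coeff_zero] at this
        rcases mul_eq_zero.1 this.symm with h2 | h2
        · exact absurd (Nat.cast_injective (sub_eq_zero.1 h2)) hi
        · exact h2
      have hg2 : g = C (g.coeff k) * X ^ k := by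
        ext i
        rw [coeff_C_mul, coeff_X_pow]
        split_ifs with h3
        · rw [h3, mul_one]
        · rw [mul_zero, hg1 i h3]
      have hr : g.eval 1 = 0 := by
        obtain ⟨q, hq⟩ := hd
        rw [hq]
        simp
      rw [hg2] at hr
      simp only [eval_mul, eval_C, eval_pow, eval_X, one_pow, mul_one] at hr
      exact (mem_support_iff.1 hk) hr
    · exact ih h h0 hcard hdiv

end univariate

open MvPolynomial

section defs

variable {K : Type} [Field K]

/-- The multiplicity at the origin of the plane curve `g = 0`: the least total degree of a monomial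
of `g`. -/
noncomputable def mult (g : MvPolynomial (Fin 2) K) : ℕ :=
  sInf {n : ℕ | ∃ a ∈ g.support, a 0 + a 1 = n}

/-- The strict transform of `g` at the point `δ` of the exceptional curve of the blow-up of the
origin: `g (x, x (y + c)) / x ^ m` for `δ = some c`, `g (x y, y) / y ^ m` for `δ = none`. -/
noncomputable def strict (g : MvPolynomial (Fin 2) K) : Option K → MvPolynomial (Fin 2) K
  | some c => (aeval ![(X 0 : MvPolynomial (Fin 2) K), X 0 * (X 1 + C c)] g).divMonomial
      (Finsupp.single 0 (mult g))
  | none => (aeval ![(X 0 * X 1 : MvPolynomial (Fin 2) K), X 1] g).divMonomial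
      (Finsupp.single 1 (mult g))

/-- The multiplicity of the strict transform of `g` at the infinitely near point `w`. -/
noncomputable def multAt : MvPolynomial (Fin 2) K → List (Option K) → ℕ
  | g, [] => mult g
  | g, δ :: w => multAt (strict g δ) w

/-- The words in the letters `some 0` and `none` of length less than `n`. -/
def words (K : Type) [Field K] : ℕ → List (List (Option K))
  | 0 => []
  | n + 1 => [] :: ((words K n).map (fun w => some 0 :: w) ++ (words K n).map (fun w => none :: w))

/-- The point of the plane with the coordinates `1`, `α`, `β` in the places `k`, `k + 1`,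
`k + 2`. -/
def pt (k : Fin 3) (α β : K) : Fin 3 → K := fun i => if i = k then 1 else if i = k + 1 then α else β

/-- The form `f` in the local coordinates `x`, `y` at the point `pt k α β`: the polynomial
`f (1, α + x, β + y)`, the entries in the places `k`, `k + 1`, `k + 2`. -/
noncomputable def loc (f : MvPolynomial (Fin 3) K) (k : Fin 3) (α β : K) : MvPolynomial (Fin 2) K :=
  aeval (fun i => if i = k then (1 : MvPolynomial (Fin 2) K) else if i = k + 1 then X 0 + C α
    else X 1 + C β) f

end defs

/-- SOM (70 lines). USES nothing. The coefficients of the strict transform at `some c`.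
PROOF. `aeval g = ∑_a C (coeff a g) * X 0 ^ (a 0 + a 1) * (X 1 + C c) ^ (a 1)` over `a ∈ g.support`
(`aeval_def`, `eval₂_eq'`, `Fin.prod_univ_two`, `mul_pow`). `(X 1 + C c) ^ n` is
`Polynomial.aeval (X 1) ((Polynomial.X + Polynomial.C c) ^ n)`, and for a polynomial `h` in one
variable `coeff e (X 0 ^ n * Polynomial.aeval (X 1) h) = if e 0 = n then h.coeff (e 1) else 0`
(induction on `h`: sums, monomials). Take the coefficient at `single 0 m + e`
(`MvPolynomial.coeff_divMonomial`). -/
def SpecSOM : Prop :=
  ∀ (K : Type) [Field K] (g : MvPolynomial (Fin 2) K) (c : K) (e : Fin 2 →₀ ℕ),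
    coeff e (strict g (some c)) = ∑ a ∈ g.support.filter (fun a => a 0 + a 1 = mult g + e 0),
      coeff a g * ((Polynomial.X + Polynomial.C c : Polynomial K) ^ (a 1)).coeff (e 1)

/-- NON (60 lines). USES nothing. The coefficients of the strict transform at `none`.
PROOF. `aeval g = ∑_a C (coeff a g) * X 0 ^ (a 0) * X 1 ^ (a 0 + a 1)`, a sum of the monomials
`monomial (a 0, a 0 + a 1) (coeff a g)`; `a ↦ (a 0, a 0 + a 1)` is injective. -/
def SpecNON : Prop :=
  ∀ (K : Type) [Field K] (g : MvPolynomial (Fin 2) K) (e : Fin 2 →₀ ℕ),
    coeff e (strict g none) = ∑ a ∈ g.support.filter (fun a => a 0 = e 0 ∧ a 0 + a 1 = mult g + e 1),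
      coeff a g

/-- TOR (120 lines). USES SOM, NON. The two toric transforms of a polynomial `g ≠ 0`: the monomial
`(a, b)` becomes `(a + b - m, b)` for `some 0` and `(a, a + b - m)` for `none`, `m = mult g`.
PROOF. `(X + C 0) ^ n = X ^ n` has the coefficient `1` at `n` only, so
`coeff e (strict g (some 0))` is the coefficient of `g` at the one `a` with `a 1 = e 1` and
`a 0 + a 1 = m + e 0`, if it exists. Every `a ∈ g.support` has `m ≤ a 0 + a 1` (`Nat.sInf_le`). So
`a ↦ (a 0 + a 1 - m, a 1)` is a bijection of the supports. The same for `none`. -/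
def SpecTOR : Prop :=
  ∀ (K : Type) [Field K] (g : MvPolynomial (Fin 2) K), g ≠ 0 →
    ((∀ a ∈ g.support, ∃ e ∈ (strict g (some 0)).support, e 0 + mult g = a 0 + a 1 ∧ e 1 = a 1) ∧
      (strict g (some 0)).support.card = g.support.card) ∧
    ((∀ a ∈ g.support, ∃ e ∈ (strict g none).support, e 0 = a 0 ∧ e 1 + mult g = a 0 + a 1) ∧
      (strict g none).support.card = g.support.card)

/-- RNG (130 lines). USES SOM, NON. The strict transform is not `0`, its multiplicity is not larger
than that of `g`, and outside the two toric points it is less than the number of terms of `g`.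
PROOF. Let `m = mult g` (attained: `Nat.sInf_mem`) and
`R = ∑ C (coeff a g) * X ^ (a 1)` over the `a ∈ g.support` with `a 0 + a 1 = m`, a polynomial in one
variable. The `a 1` are different, so `R ≠ 0`, `R` has at most `card g.support` terms and
`natDegree R ≤ m`. By SOM the coefficient of `strict g (some c)` at `(0, j)` is the coefficient of
`R.comp (X + C c)` at `j`. This polynomial is not `0` and of degree at most `m`: some `j ≤ m` has a
coefficient which is not `0`, so `strict g (some c) ≠ 0` and `mult ≤ j ≤ m`. If `c ≠ 0` and
all coefficients with `j < n`, `n` the number of terms of `g`, are `0`, then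
`X ^ n ∣ R.comp (X + C c)`, so `(X - C c) ^ n ∣ R` (compose with `X - C c`) and
`(X - C 1) ^ n ∣ R.comp (C c * X)`, which has at most `n` terms and is not `0`: this contradicts
`not_dvd` above. For `none`: the coefficient at `(a 0, 0)`, `a 0 + a 1 = m`, is `coeff a g` (NON). -/
def SpecRNG : Prop :=
  ∀ (K : Type) [Field K] [CharZero K] (g : MvPolynomial (Fin 2) K), g ≠ 0 →
    (∀ δ : Option K, strict g δ ≠ 0 ∧ mult (strict g δ) ≤ mult g) ∧
    ∀ c : K, c ≠ 0 → mult (strict g (some c)) + 1 ≤ g.support.card


/-- SUM (80 lines). USES TOR. All toric infinitely near points of a polynomial with the terms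
`x ^ a` and `y ^ b`. PROOF. Induction on `n` for all `g`, `a`, `b`. Let `m = mult g`, attained at
`(i, m - i)`; `m ≤ a`, `m ≤ b`. By TOR `strict g (some 0)` has the terms `x ^ (a - m)` and
`y ^ (m - i)`, `strict g none` has the terms `x ^ i` and `y ^ (b - m)`. So the sum is at most
`m ^ 2 + (a - m) (m - i) + i (b - m)`, which is at most `a b`: with `a = m + p`, `b = m + q`,
`m = i + r` the difference is `p i + q r + p q`. (`List.sum` of a `map` over `words`, by
`List.map_append`, `List.sum_append`, `List.map_map`.) -/
def SpecSUM : Prop :=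
  ∀ (K : Type) [Field K] (n : ℕ) (g : MvPolynomial (Fin 2) K) (a b : ℕ),
    (∃ e ∈ g.support, e 0 = a ∧ e 1 = 0) → (∃ e ∈ g.support, e 0 = 0 ∧ e 1 = b) →
    ((words K n).map (fun w => multAt g w ^ 2)).sum ≤ a * b

/-- CHN (60 lines). USES TOR, RNG. PROOF. (1) Induction on `w` by RNG. (2) Induction on `w` for all
`g`: for `w = []` it is a toric word; for `δ :: w` with `δ = some 0` or `none` use TOR (the number
of terms is the same) and induction; for `δ = some c`, `c ≠ 0`, RNG and (1). -/
def SpecCHN : Prop :=
  ∀ (K : Type) [Field K] [CharZero K] (g : MvPolynomial (Fin 2) K), g ≠ 0 →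
    (∀ w, multAt g w ≤ mult g) ∧
    ∀ w : List (Option K), (∀ δ ∈ w, δ = some 0 ∨ δ = none) ∨ multAt g w + 1 ≤ g.support.card

/-- CRN (100 lines). USES SUM, CHN. The points above a vertex. `words K n` has no repetitions
(induction) and contains every word of length `< n` with the letters `some 0`, `none`. Let `n` be
larger than all lengths in `T`. Split `T` into the toric words (their sum is at most the sum over
`words K n`, SUM) and the others (each term is at most `(t - 1) ^ 2` by CHN, `t ≥ card ≥ 1`). -/
def SpecCRN : Prop :=
  ∀ (K : Type) [Field K] [CharZero K] (g : MvPolynomial (Fin 2) K) (a b t : ℕ)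
    (T : Finset (List (Option K))),
    (∃ e ∈ g.support, e 0 = a ∧ e 1 = 0) → (∃ e ∈ g.support, e 0 = 0 ∧ e 1 = b) →
    g.support.card ≤ t →
    ∑ w ∈ T, multAt g w ^ 2 ≤ a * b + T.card * (t - 1) ^ 2

/-- VTX (110 lines). USES nothing. The form `f` at the vertex `pt k 0 0`: the exponent `s` of `f`
becomes `(s (k + 1), s (k + 2))`, and `s k = d - s (k + 1) - s (k + 2)`.
PROOF. `loc f k 0 0 = ∑_s C (coeff s f) * X 0 ^ s (k + 1) * X 1 ^ s (k + 2)`; the map on the
exponents is injective on the support of a form of degree `d`. (Take `k = 0, 1, 2` separately: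
`fin_cases k`.) -/
def SpecVTX : Prop :=
  ∀ (K : Type) [Field K] (f : MvPolynomial (Fin 3) K) (d : ℕ), f.IsHomogeneous d → ∀ k : Fin 3,
    (loc f k 0 0).support.card ≤ f.support.card ∧
    ∀ s ∈ f.support, ∃ e ∈ (loc f k 0 0).support, e 0 = s (k + 1) ∧ e 1 = s (k + 2)

/-- GEN (170 lines). USES nothing (helper71 has all of this for three variables in
`Results/MP_387a85_ag/FewMonomials.lean`; adapt). At a point which is not a vertex the multiplicity
is less than the number of terms, and the local equation is not `0`.
PROOF. Let `N = d + 1`, `q 0 = C α * (X ^ N - 1)`, `q 1 = C β * (X ^ (N + 1) - 1)` in `K[X]`. Both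
are divisible by `X - 1`, so `(X - 1) ^ mult g ∣ aeval q g` for every `g` (term by term:
`mult g ≤ a 0 + a 1`). For `g = loc f k α β` this is the value of `f` at `1`, `C α * X ^ N`,
`C β * X ^ (N + 1)` (places `k`, `k + 1`, `k + 2`), i.e.
`∑_s C (coeff s f * α ^ s (k + 1) * β ^ s (k + 2)) * X ^ (N s (k + 1) + (N + 1) s (k + 2))`; the
exponents of `X` are different on the support of a form of degree `d < N`. It is not `0`: if
`α`, `β ≠ 0`, each term is not `0`; if `α = 0`, take a term `s` with `s (k + 1) = 0`, which exists
as `X (k + 1)` does not divide `f` (then `β ≠ 0`); in the same way for `β = 0`. Use `not_dvd`. -/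
def SpecGEN : Prop :=
  ∀ (K : Type) [Field K] [CharZero K] (f : MvPolynomial (Fin 3) K) (d : ℕ), f.IsHomogeneous d →
    (∀ i, ¬ X i ∣ f) → ∀ (k : Fin 3) (α β : K), (α ≠ 0 ∨ β ≠ 0) →
      loc f k α β ≠ 0 ∧ mult (loc f k α β) + 1 ≤ f.support.card

/-- LIN (60 lines). USES nothing. The line `X i = 0`: the local equation `loc (C c * X i) k α β` is
`C c`, `C c * (X 0 + C α)` or `C c * (X 1 + C β)`; its multiplicity is at most `1` and it is not
`0`. -/
def SpecLIN : Prop :=
  ∀ (K : Type) [Field K] (c : K), c ≠ 0 → ∀ (i k : Fin 3) (α β : K),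
    loc (C c * X i) k α β ≠ 0 ∧ mult (loc (C c * X i) k α β) ≤ 1

end Pool.Agent.Lib.MP387a85.IN
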