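import Pool.Agent.Lib.MP_387a85_ag.IN.Spec

/-!
# MP_387a85_ag: the curves `f(x) = g(y)` and infinitely near points

`f = f₁ / f₂`, `g = g₁ / g₂` rational functions of degree `n`, `m`; the curve is
`f₁(x) g₂(y) = f₂(x) g₁(y)`, of bidegree `(n, m)` on the product of two projective lines.
File `Pool/Agent/Lib/MP_387a85_ag/IN/XXX.lean`, importing only this file (CH2 may import `IN.CHN`,
`IN.TOR`, `IN.RNG`, `IN.SOM`, `IN.NON` to use `specCHN`; CR2 may copy `IN/CRN.lean`), theorem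
`Pool.Agent.Lib.MP387a85.IN.specXXX (hYYY : SpecYYY) .. : SpecXXX` (hypotheses in the order of
USES), own lemmas in the namespace `XXXM`.
-/

set_option autoImplicit false

namespace Pool.Agent.Lib.MP387a85.IN

open MvPolynomial

section defs2

variable {K : Type} [Field K]

/-- The polynomial `f₁(x) g₂(y) - f₂(x) g₁(y)`. -/
noncomputable def curve (f₁ f₂ g₁ g₂ : Polynomial K) : MvPolynomial (Fin 2) K :=
  Polynomial.aeval (X 0) f₁ * Polynomial.aeval (X 1) g₂ -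
    Polynomial.aeval (X 0) f₂ * Polynomial.aeval (X 1) g₁

/-- The polynomial `F (a + x, b + y)`. -/
noncomputable def locA (F : MvPolynomial (Fin 2) K) (a b : K) : MvPolynomial (Fin 2) K :=
  aeval ![(X 0 + C a : MvPolynomial (Fin 2) K), X 1 + C b] F

/-- The ramification index of `f₁ / f₂` at `a`: the order of vanishing at `a` of
`f₂(a) f₁ - f₁(a) f₂`. -/
noncomputable def ram (f₁ f₂ : Polynomial K) (a : K) : ℕ :=
  (Polynomial.C (f₂.eval a) * f₁ - Polynomial.C (f₁.eval a) * f₂).rootMultiplicity a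

end defs2

/-- ZR2 (60 lines). USES nothing. A polynomial which does not vanish at the origin: all its
multiplicities at infinitely near points are `0`. PROOF. `mult g = 0` (the exponent `0` is in the
support), `strict g δ` is the substituted polynomial (`divMonomial` by `single _ 0 = 0`), with the
same constant coefficient (`constantCoeff` of an `aeval` at polynomials without constant term in
the relevant places: both `x` and `x (y + c)`, resp. `x y` and `y`, vanish at the origin). -/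
def SpecZR2 : Prop :=
  ∀ (K : Type) [Field K] (g : MvPolynomial (Fin 2) K), coeff 0 g ≠ 0 → ∀ w, multAt g w = 0

/-- STR2 (120 lines). USES nothing. The strict transforms of `g = x ^ A U + y ^ B W`, where
`A, B ≥ 1` and `U`, `W` do not vanish at the origin. PROOF. `mult g = min A B`: all exponents have
total degree `≥ min A B`, and the term `x ^ A` (coefficient `U(0) ≠ 0`; the other summand has no
term without `y`), the term `y ^ B` occur. If `B < A`: `g (x, x (y + c)) = x ^ B (x ^ (A - B) U' +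
(y + c) ^ B W')`, `U'`, `W'` the substituted polynomials; divide by `x ^ B`
(`divMonomial_monomial_mul` or the like); `g (x y, y) = y ^ B (x ^ A y ^ (A - B) U'' + W'')`. In the
same way for `A < B` and `A = B`. -/
def SpecSTR2 : Prop :=
  ∀ (K : Type) [Field K] (U W : MvPolynomial (Fin 2) K) (A B : ℕ), coeff 0 U ≠ 0 → coeff 0 W ≠ 0 →
    1 ≤ A → 1 ≤ B →
    X 0 ^ A * U + X 1 ^ B * W ≠ 0 ∧ mult (X 0 ^ A * U + X 1 ^ B * W) = min A B ∧
    (B < A → ∀ c : K, ∃ U' W' : MvPolynomial (Fin 2) K, coeff 0 U' ≠ 0 ∧ coeff 0 W' ≠ 0 ∧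
      strict (X 0 ^ A * U + X 1 ^ B * W) (some c) = X 0 ^ (A - B) * U' + (X 1 + C c) ^ B * W') ∧
    (B < A → coeff 0 (strict (X 0 ^ A * U + X 1 ^ B * W) none) ≠ 0) ∧
    (A < B → ∃ U' W' : MvPolynomial (Fin 2) K, coeff 0 U' ≠ 0 ∧ coeff 0 W' ≠ 0 ∧
      strict (X 0 ^ A * U + X 1 ^ B * W) none = X 0 ^ A * U' + X 1 ^ (B - A) * W') ∧
    (A < B → ∀ c : K, coeff 0 (strict (X 0 ^ A * U + X 1 ^ B * W) (some c)) ≠ 0) ∧
    (A = B → coeff 0 (strict (X 0 ^ A * U + X 1 ^ B * W) none) ≠ 0 ∧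
      coeff 0 (strict (X 0 ^ A * U + X 1 ^ B * W) (some 0)) ≠ 0 ∧
      ∀ c : K, c ≠ 0 → (A : K) ≠ 0 → strict (X 0 ^ A * U + X 1 ^ B * W) (some c) ≠ 0 ∧
        mult (strict (X 0 ^ A * U + X 1 ^ B * W) (some c)) ≤ 1)

/-- SM2 (90 lines). USES ZR2, STR2. The toric infinitely near points of `x ^ A U + y ^ B W`.
PROOF. Strong induction on `A + B`, all `n`. The empty word gives `min A B ^ 2`. If `B < A`: the
words `some 0 :: w` give at most `(A - B) B` (STR2 with `c = 0`, induction), the words `none :: w`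
give `0` (ZR2); `B ^ 2 + (A - B) B = A B`. In the same way for `A < B`. If `A = B` all other words
give `0`. -/
def SpecSM2 : Prop :=
  ∀ (K : Type) [Field K] (n : ℕ) (U W : MvPolynomial (Fin 2) K) (A B : ℕ), coeff 0 U ≠ 0 →
    coeff 0 W ≠ 0 → 1 ≤ A → 1 ≤ B →
    ((words K n).map (fun w => multAt (X 0 ^ A * U + X 1 ^ B * W) w ^ 2)).sum ≤ A * B

/-- CH2 (80 lines). USES CHN, ZR2, STR2. PROOF. Strong induction on `A + B` (or induction on the
word). For `w = []` toric. For `δ :: w` with `δ = some c`, `c ≠ 0`: if `B < A` the constant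
coefficient of the strict transform is `c ^ B W'(0) ≠ 0`: ZR2; if `A < B`: ZR2; if `A = B` the
multiplicity is at most `1` and the strict transform is not `0`: CHN (1). For `δ = some 0` or `none`:
induction or ZR2. -/
def SpecCH2 : Prop :=
  ∀ (K : Type) [Field K] [CharZero K] (U W : MvPolynomial (Fin 2) K) (A B : ℕ), coeff 0 U ≠ 0 →
    coeff 0 W ≠ 0 → 1 ≤ A → 1 ≤ B → ∀ w : List (Option K), (∀ δ ∈ w, δ = some 0 ∨ δ = none) ∨
      multAt (X 0 ^ A * U + X 1 ^ B * W) w ≤ 1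

/-- CR2 (80 lines). USES SM2, CH2. As `IN/CRN.lean`: split `T` into the toric words and the
others. -/
def SpecCR2 : Prop :=
  ∀ (K : Type) [Field K] [CharZero K] (U W : MvPolynomial (Fin 2) K) (A B : ℕ), coeff 0 U ≠ 0 →
    coeff 0 W ≠ 0 → 1 ≤ A → 1 ≤ B → ∀ T : Finset (List (Option K)),
      ∑ w ∈ T, multAt (X 0 ^ A * U + X 1 ^ B * W) w ^ 2 ≤ A * B + T.card

/-- LK2 (140 lines). USES nothing. The local equation at a point `(a, b)` with `f(a) = g(b)`.
PROOF. Let `(v₁, v₂) = (f₁(a), f₂(a)) ≠ 0` (coprime), `h = v₂ f₁ - v₁ f₂ = (x - a) ^ A h'`,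
`h'(a) ≠ 0`, `A = ram f₁ f₂ a ≥ 1` (`h ≠ 0`, as `f₁`, `f₂` are linearly independent: coprime and not
both constant), and `(g₁(b), g₂(b)) = c (v₁, v₂)` with `c ≠ 0`, `k = g₂(b) g₁ - g₁(b) g₂ =
(y - b) ^ B k'`, `k'(b) ≠ 0`, `B = ram g₁ g₂ b ≥ 1`. If `v₂ ≠ 0`:
`f₁ g₂ - f₂ g₁ = (h g₂ - f₂ k / c) / v₂`; if `v₁ ≠ 0`: `f₁ g₂ - f₂ g₁ = (h g₁ - f₁ k / c) / v₁`. The
cofactors `g₂(b)`, `f₂(a)` resp. `g₁(b)`, `f₁(a)` are not `0`. Substitute `x + a`, `y + b`. -/
def SpecLK2 : Prop :=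
  ∀ (K : Type) [Field K] (f₁ f₂ g₁ g₂ : Polynomial K), IsCoprime f₁ f₂ → IsCoprime g₁ g₂ →
    1 ≤ max f₁.natDegree f₂.natDegree → 1 ≤ max g₁.natDegree g₂.natDegree → ∀ a b : K,
    f₁.eval a * g₂.eval b = f₂.eval a * g₁.eval b →
    1 ≤ ram f₁ f₂ a ∧ 1 ≤ ram g₁ g₂ b ∧ ∃ U W : MvPolynomial (Fin 2) K, coeff 0 U ≠ 0 ∧
      coeff 0 W ≠ 0 ∧
      locA (curve f₁ f₂ g₁ g₂) a b = X 0 ^ (ram f₁ f₂ a) * U + X 1 ^ (ram g₁ g₂ b) * W

/-- UA2 (80 lines). USES nothing. One fibre. PROOF. If `A = ∅` it is clear. Take `a₀ ∈ A`,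
`h = f₂(a₀) f₁ - f₁(a₀) f₂ ≠ 0`, of degree `≤ n`. For `a ∈ A` the vector `(f₁(a), f₂(a))` is a
nonzero multiple of `(f₁(a₀), f₂(a₀))`, so `ram f₁ f₂ a = h.rootMultiplicity a`. The sum of the
multiplicities of different roots is at most the degree (`Polynomial.card_roots'`,
`Multiset` counts, or `prod_multiset_root...`). -/
def SpecUA2 : Prop :=
  ∀ (K : Type) [Field K] (f₁ f₂ : Polynomial K), IsCoprime f₁ f₂ →
    1 ≤ max f₁.natDegree f₂.natDegree → ∀ A : Finset K,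
    (∀ a ∈ A, ∀ a' ∈ A, f₁.eval a * f₂.eval a' = f₂.eval a * f₁.eval a') →
      ∑ a ∈ A, ram f₁ f₂ a ≤ max f₁.natDegree f₂.natDegree

/-- UB2 (120 lines). USES nothing. Riemann-Hurwitz for the line. PROOF. `D = f₁' f₂ - f₁ f₂'` is
not `0` (otherwise `f₁ ∣ f₁' f₂`, so `f₁ ∣ f₁'`, `f₁' = 0`, in the same way `f₂' = 0`, characteristic
`0`) and has degree at most `2 n - 2` (`n = max`; if both degrees are `n` the terms of degree
`2 n - 1` cancel; otherwise clear). For every `a`: with `h = f₂(a) f₁ - f₁(a) f₂ = (x - a) ^ A h'`,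
if `f₂(a) ≠ 0` then `f₂(a) D = h' f₂ - h f₂'` (with the derivative of `h`), if `f₁(a) ≠ 0` then
`f₁(a) D = h' f₁ - h f₁'` up to the sign, so `(x - a) ^ (A - 1) ∣ D`. Sum over `A`: the multiplicities
of different roots of `D` add up to at most the degree. -/
def SpecUB2 : Prop :=
  ∀ (K : Type) [Field K] [CharZero K] (f₁ f₂ : Polynomial K), IsCoprime f₁ f₂ →
    1 ≤ max f₁.natDegree f₂.natDegree → ∀ A : Finset K,
      ∑ a ∈ A, (ram f₁ f₂ a - 1) ≤ 2 * max f₁.natDegree f₂.natDegree - 2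

/-- GI2 (150 lines). USES nothing. The counting inequality. PROOF. For a value `v` let `X v`, `Y v`
be the sums of `α`, `β` over the `a ∈ A`, `b ∈ B` with the value `v`, `A`, `B` the projections of
`L`; the left side is at most `∑ v, X v * Y v` (over the values which occur), `X v ≤ n`,
`Y v ≤ m`, `∑ X v ≤ 2 n + e`, `∑ Y v ≤ 2 m + e'` with `e = |A| - 2`, `e' = |B| - 2`. If only one value
occurs the sum is `≤ n m`. Otherwise `e, e' ≥ 0`; let `v = 1, 2` be the two values with the largest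
`X`, `X 1 ≥ X 2 ≥` the others, `z ≤ X 2` the largest of the others (`0` if there is none), so
`z ≤ 2 n + e - X 1 - X 2`. Then `∑ X v Y v ≤ X 1 Y 1 + X 2 Y 2 + z (2 m + e' - Y 1 - Y 2)
≤ (X 1 + X 2) m + z e'` (as `(X 1 - z) (m - Y 1) ≥ 0` and `(X 2 - z) (m - Y 2) ≥ 0`). If `z ≤ e`:
`≤ 2 n m + e e'`. If `z > e` and `e' ≤ m`: `≤ (2 n + e - z) m + z e' ≤ 2 n m + e e'`. If `e' > m`:
`∑ X v Y v ≤ m (2 n + e) ≤ 2 n m + e e'`. And `e, e' ≤ |L| - 2`. -/
def SpecGI2 : Prop :=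
  ∀ (P Q V : Type) [DecidableEq P] [DecidableEq Q] [DecidableEq V] (L : Finset (P × Q))
    (φ : P → V) (ψ : Q → V) (α : P → ℕ) (β : Q → ℕ) (n m : ℕ), 1 ≤ n → 1 ≤ m →
    (∀ l ∈ L, φ l.1 = ψ l.2) →
    (∀ v, ∑ a ∈ (L.image Prod.fst).filter (fun a => φ a = v), α a ≤ n) →
    (∀ v, ∑ b ∈ (L.image Prod.snd).filter (fun b => ψ b = v), β b ≤ m) →
    ∑ a ∈ L.image Prod.fst, α a + 2 ≤ 2 * n + (L.image Prod.fst).card →
    ∑ b ∈ L.image Prod.snd, β b + 2 ≤ 2 * m + (L.image Prod.snd).card →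
    (∑ l ∈ L, (α l.1 : ℤ) * β l.2) ≤ 2 * n * m + ((L.card : ℤ) - 2) ^ 2

end Pool.Agent.Lib.MP387a85.IN
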