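import Pool.Agent.Lib.MP_387a85_ag.IN.Spec

set_option autoImplicit false

namespace Pool.Agent.Lib.MP387a85.IN

open MvPolynomial

namespace TORM

variable {K : Type} [Field K]

lemma mult_le (g : MvPolynomial (Fin 2) K) {a : Fin 2 →₀ ℕ} (ha : a ∈ g.support) :
    mult g ≤ a 0 + a 1 := Nat.sInf_le ⟨a, ha, rfl⟩

/-- the exponent with the entries `i`, `j` -/
noncomputable def pr (i j : ℕ) : Fin 2 →₀ ℕ := Finsupp.single 0 i + Finsupp.single 1 j

lemma pr0 (i j : ℕ) : pr i j 0 = i := by simp [pr]

lemma pr1 (i j : ℕ) : pr i j 1 = j := by simp [pr]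

lemma ext2 {a b : Fin 2 →₀ ℕ} (h0 : a 0 = b 0) (h1 : a 1 = b 1) : a = b := by
  ext i
  fin_cases i
  · exact h0
  · exact h1

lemma card_eq (g h : MvPolynomial (Fin 2) K) (φ : (Fin 2 →₀ ℕ) → (Fin 2 →₀ ℕ))
    (hφ : Set.InjOn φ (g.support : Set (Fin 2 →₀ ℕ)))
    (h1 : ∀ a ∈ g.support, coeff (φ a) h = coeff a g)
    (h2 : ∀ e ∈ h.support, ∃ a ∈ g.support, φ a = e) : h.support.card = g.support.card := by
  classical
  have hs : h.support = g.support.image φ := by
    ext e
    rw [Finset.mem_image]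
    constructor
    · exact h2 e
    · rintro ⟨a, ha, rfl⟩
      rw [mem_support_iff, h1 a ha]
      exact mem_support_iff.mp ha
  rw [hs, Finset.card_image_of_injOn hφ]

end TORM

theorem specTOR (hSOM : SpecSOM) (hNON : SpecNON) : SpecTOR := by
  classical
  intro K _ g _
  constructor
  · let φ : (Fin 2 →₀ ℕ) → (Fin 2 →₀ ℕ) := fun a => TORM.pr (a 0 + a 1 - mult g) (a 1)
    have hφ0 : ∀ a, φ a 0 = a 0 + a 1 - mult g := fun a => TORM.pr0 _ _
    have hφ1 : ∀ a, φ a 1 = a 1 := fun a => TORM.pr1 _ _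
    have hX : ∀ (n j : ℕ), ((Polynomial.X + Polynomial.C (0 : K) : Polynomial K) ^ n).coeff j =
        if j = n then 1 else 0 := by
      intro n j
      rw [Polynomial.C_0, add_zero, Polynomial.coeff_X_pow]
    have h1 : ∀ a ∈ g.support, coeff (φ a) (strict g (some 0)) = coeff a g := by
      intro a ha
      have hm := TORM.mult_le g ha
      rw [hSOM K g 0 (φ a), Finset.sum_eq_single a]
      · rw [hX, hφ1, if_pos rfl, mul_one]
      · intro b hb hne
        rw [Finset.mem_filter, hφ0] at hb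
        rw [hX, hφ1]
        by_cases h : a 1 = b 1
        · exfalso
          apply hne
          exact TORM.ext2 (by omega) h.symm
        · rw [if_neg h, mul_zero]
      · intro hna
        exfalso
        apply hna
        rw [Finset.mem_filter, hφ0]
        exact ⟨ha, by omega⟩
    have h2 : ∀ e ∈ (strict g (some 0)).support, ∃ a ∈ g.support, φ a = e := by
      intro e he
      rw [mem_support_iff, hSOM K g 0 e] at he
      obtain ⟨b, hb, hb'⟩ := Finset.exists_ne_zero_of_sum_ne_zero he
      rw [Finset.mem_filter] at hb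
      rw [hX] at hb'
      by_cases h : e 1 = b 1
      · refine ⟨b, hb.1, TORM.ext2 ?_ ?_⟩
        · rw [hφ0]; omega
        · rw [hφ1]; exact h.symm
      · rw [if_neg h, mul_zero] at hb'
        exact absurd rfl hb'
    have hinj : Set.InjOn φ (g.support : Set (Fin 2 →₀ ℕ)) := by
      intro a ha b hb hab
      have hma := TORM.mult_le g (Finset.mem_coe.mp ha)
      have hmb := TORM.mult_le g (Finset.mem_coe.mp hb)
      have e0 : φ a 0 = φ b 0 := by rw [hab]
      have e1 : φ a 1 = φ b 1 := by rw [hab]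
      rw [hφ0, hφ0] at e0
      rw [hφ1, hφ1] at e1
      exact TORM.ext2 (by omega) e1
    refine ⟨?_, TORM.card_eq g _ φ hinj h1 h2⟩
    intro a ha
    have hm := TORM.mult_le g ha
    refine ⟨φ a, ?_, ?_, hφ1 a⟩
    · rw [mem_support_iff, h1 a ha]
      exact mem_support_iff.mp ha
    · rw [hφ0]; omega
  · let φ : (Fin 2 →₀ ℕ) → (Fin 2 →₀ ℕ) := fun a => TORM.pr (a 0) (a 0 + a 1 - mult g)
    have hφ0 : ∀ a, φ a 0 = a 0 := fun a => TORM.pr0 _ _
    have hφ1 : ∀ a, φ a 1 = a 0 + a 1 - mult g := fun a => TORM.pr1 _ _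
    have h1 : ∀ a ∈ g.support, coeff (φ a) (strict g none) = coeff a g := by
      intro a ha
      have hm := TORM.mult_le g ha
      rw [hNON K g (φ a), Finset.sum_eq_single a]
      · intro b hb hne
        rw [Finset.mem_filter, hφ0, hφ1] at hb
        exfalso
        apply hne
        exact TORM.ext2 (by omega) (by omega)
      · intro hna
        exfalso
        apply hna
        rw [Finset.mem_filter, hφ0, hφ1]
        exact ⟨ha, rfl, by omega⟩
    have h2 : ∀ e ∈ (strict g none).support, ∃ a ∈ g.support, φ a = e := by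
      intro e he
      rw [mem_support_iff, hNON K g e] at he
      obtain ⟨b, hb, -⟩ := Finset.exists_ne_zero_of_sum_ne_zero he
      rw [Finset.mem_filter] at hb
      refine ⟨b, hb.1, TORM.ext2 ?_ ?_⟩
      · rw [hφ0]; exact hb.2.1
      · rw [hφ1]; omega
    have hinj : Set.InjOn φ (g.support : Set (Fin 2 →₀ ℕ)) := by
      intro a ha b hb hab
      have hma := TORM.mult_le g (Finset.mem_coe.mp ha)
      have hmb := TORM.mult_le g (Finset.mem_coe.mp hb)
      have e0 : φ a 0 = φ b 0 := by rw [hab]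
      have e1 : φ a 1 = φ b 1 := by rw [hab]
      rw [hφ0, hφ0] at e0
      rw [hφ1, hφ1] at e1
      exact TORM.ext2 e0 (by omega)
    refine ⟨?_, TORM.card_eq g _ φ hinj h1 h2⟩
    intro a ha
    have hm := TORM.mult_le g ha
    refine ⟨φ a, ?_, hφ0 a, ?_⟩
    · rw [mem_support_iff, h1 a ha]
      exact mem_support_iff.mp ha
    · rw [hφ1]; omega

end Pool.Agent.Lib.MP387a85.IN
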