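import Pool.Agent.Lib.MP_387a85_ag.IN.Spec2

set_option autoImplicit false

namespace Pool.Agent.Lib.MP387a85.IN

namespace UA2M

open Polynomial

lemma eval_ne {K : Type} [Field K] (f₁ f₂ : Polynomial K) (hco : IsCoprime f₁ f₂) (a : K) :
    f₁.eval a ≠ 0 ∨ f₂.eval a ≠ 0 := by
  by_contra hcon
  have h1 : f₁.eval a = 0 := by
    by_contra h
    exact hcon (Or.inl h)
  have h2 : f₂.eval a = 0 := by
    by_contra h
    exact hcon (Or.inr h)
  obtain ⟨u, v, huv⟩ := hco
  have h3 := congrArg (Polynomial.eval a) huv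
  rw [eval_add, eval_mul, eval_mul, h1, h2, eval_one] at h3
  simp at h3

lemma comb_ne {K : Type} [Field K] (f₁ f₂ : Polynomial K) (hco : IsCoprime f₁ f₂)
    (hn : 1 ≤ max f₁.natDegree f₂.natDegree) (v₁ v₂ : K) (hv : v₂ ≠ 0) :
    C v₂ * f₁ - C v₁ * f₂ ≠ 0 := by
  intro h0
  have h1 : C v₂ * f₁ = C v₁ * f₂ := sub_eq_zero.1 h0
  have h2 : f₁ = C (v₂⁻¹ * v₁) * f₂ := by
    have : C (v₂⁻¹) * (C v₂ * f₁) = C (v₂⁻¹) * (C v₁ * f₂) := by rw [h1]
    rw [← mul_assoc, ← mul_assoc, ← C_mul, ← C_mul, inv_mul_cancel₀ hv, C_1, one_mul] at this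
    exact this
  have h3 : f₂ ∣ f₁ := ⟨C (v₂⁻¹ * v₁), by rw [mul_comm]; exact h2⟩
  have h4 : IsUnit f₂ := (hco.symm).isUnit_of_dvd h3
  have h5 : f₂.natDegree = 0 := natDegree_eq_zero_of_isUnit h4
  have h6 : f₁.natDegree ≤ f₂.natDegree := by
    rw [h2]
    exact natDegree_C_mul_le _ _
  have h7 : max f₁.natDegree f₂.natDegree ≤ 0 := by
    apply max_le
    · omega
    · omega
  omega

lemma ram_eq {K : Type} [Field K] (k : K) (hk : k ≠ 0) (p q : Polynomial K) (a : K)
    (h : q = C k * p) : p.rootMultiplicity a = q.rootMultiplicity a := by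
  classical
  rw [← count_roots, ← count_roots, h, roots_C_mul _ hk]

end UA2M

theorem specUA2 : SpecUA2 := by
  intro K _ f₁ f₂ hco hn A hA
  classical
  rcases A.eq_empty_or_nonempty with hAe | ⟨a₀, ha₀⟩
  · rw [hAe]
    simp
  obtain ⟨h, hh⟩ : ∃ h : Polynomial K, h = Polynomial.C (f₂.eval a₀) * f₁ -
    Polynomial.C (f₁.eval a₀) * f₂ := ⟨_, rfl⟩
  have hv := UA2M.eval_ne f₁ f₂ hco a₀
  have hh0 : h ≠ 0 := by
    rcases hv with hv | hv
    · have h1 := UA2M.comb_ne f₂ f₁ hco.symm (by rw [max_comm]; exact hn) (f₂.eval a₀)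
        (f₁.eval a₀) hv
      intro h2
      apply h1
      have : Polynomial.C (f₁.eval a₀) * f₂ - Polynomial.C (f₂.eval a₀) * f₁ = -h := by
        rw [hh]
        ring
      rw [this, h2, neg_zero]
    · rw [hh]
      exact UA2M.comb_ne f₁ f₂ hco hn _ _ hv
  have hdeg : h.natDegree ≤ max f₁.natDegree f₂.natDegree := by
    rw [hh]
    refine (Polynomial.natDegree_sub_le _ _).trans ?_
    exact max_le_max (Polynomial.natDegree_C_mul_le _ _) (Polynomial.natDegree_C_mul_le _ _)
  have hram : ∀ a ∈ A, ram f₁ f₂ a = h.rootMultiplicity a := by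
    intro a ha
    have he := hA a ha a₀ ha₀
    have hva := UA2M.eval_ne f₁ f₂ hco a
    unfold ram
    by_cases h2 : f₂.eval a₀ = 0
    · have h1 : f₁.eval a₀ ≠ 0 := by
        rcases hv with hv | hv
        · exact hv
        · exact absurd h2 hv
      have h3 : f₂.eval a = 0 := by
        rw [h2, mul_zero] at he
        rcases mul_eq_zero.1 he.symm with h | h
        · exact h
        · exact absurd h h1
      have h4 : f₁.eval a ≠ 0 := by
        rcases hva with hva | hva
        · exact hva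
        · exact absurd h3 hva
      apply UA2M.ram_eq (f₁.eval a₀ / f₁.eval a) (div_ne_zero h1 h4)
      rw [hh, h2, h3, mul_sub, ← mul_assoc, ← mul_assoc, ← Polynomial.C_mul, ← Polynomial.C_mul,
        div_mul_cancel₀ _ h4, mul_zero]
    · have h4 : f₂.eval a ≠ 0 := by
        intro h3
        rw [h3, zero_mul] at he
        rcases mul_eq_zero.1 he with h | h
        · rcases hva with hva | hva
          · exact hva h
          · exact hva h3
        · exact h2 h
      apply UA2M.ram_eq (f₂.eval a₀ / f₂.eval a) (div_ne_zero h2 h4)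
      have h5 : f₂.eval a₀ / f₂.eval a * f₁.eval a = f₁.eval a₀ := by
        rw [div_mul_eq_mul_div, div_eq_iff h4, mul_comm (f₂.eval a₀), he, mul_comm]
      rw [hh, mul_sub, ← mul_assoc, ← mul_assoc, ← Polynomial.C_mul, ← Polynomial.C_mul,
        div_mul_cancel₀ _ h4, h5]
  calc ∑ a ∈ A, ram f₁ f₂ a = ∑ a ∈ A, h.roots.count a := by
        apply Finset.sum_congr rfl
        intro a ha
        rw [hram a ha, Polynomial.count_roots]
    _ ≤ ∑ a ∈ A ∪ h.roots.toFinset, h.roots.count a :=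
        Finset.sum_le_sum_of_subset Finset.subset_union_left
    _ = Multiset.card h.roots := by
        apply Multiset.sum_count_eq_card
        intro a ha
        exact Finset.mem_union_right _ (Multiset.mem_toFinset.2 ha)
    _ ≤ h.natDegree := Polynomial.card_roots' _
    _ ≤ max f₁.natDegree f₂.natDegree := hdeg

end Pool.Agent.Lib.MP387a85.IN
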