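import Pool.Agent.Lib.MP_387a85_ag.IN.Spec2

/-! Module UB2 (helper99): Riemann-Hurwitz for a rational function in one variable. -/

set_option autoImplicit false

namespace Pool.Agent.Lib.MP387a85.IN

namespace UB2M

open Polynomial

variable {K : Type} [Field K]

theorem natDegree_zero_of_dvd [CharZero K] (f : K[X]) (h : f ∣ derivative f) :
    f.natDegree = 0 := by
  by_contra hne
  by_cases h0 : derivative f = 0
  · exact hne (derivative_eq_zero.1 h0)
  · have h1 := natDegree_le_of_dvd h h0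
    have h2 := natDegree_derivative_lt hne
    omega

theorem wr_ne [CharZero K] (f₁ f₂ : K[X]) (hc : IsCoprime f₁ f₂)
    (hn : 1 ≤ max f₁.natDegree f₂.natDegree) :
    derivative f₁ * f₂ - f₁ * derivative f₂ ≠ 0 := by
  intro h0
  have h1 : derivative f₁ * f₂ = f₁ * derivative f₂ := sub_eq_zero.1 h0
  have h2 : f₁ ∣ derivative f₁ := by
    refine hc.dvd_of_dvd_mul_right ?_
    rw [h1]
    exact Dvd.intro _ rfl
  have h3 : f₂ ∣ derivative f₂ := by
    refine hc.symm.dvd_of_dvd_mul_left ?_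
    rw [← h1]
    exact Dvd.intro_left _ rfl
  have h4 := natDegree_zero_of_dvd f₁ h2
  have h5 := natDegree_zero_of_dvd f₂ h3
  rw [h4, h5] at hn
  simp at hn

theorem wr_deg (f₁ f₂ : K[X]) (k : ℕ) (h1 : f₁.natDegree ≤ k + 1) (h2 : f₂.natDegree ≤ k + 1) :
    (derivative f₁ * f₂ - f₁ * derivative f₂).natDegree ≤ 2 * k := by
  have d1 : (derivative f₁).natDegree ≤ k := by
    have := natDegree_derivative_le f₁
    omega
  have d2 : (derivative f₂).natDegree ≤ k := by
    have := natDegree_derivative_le f₂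
    omega
  have e1 : (derivative f₁ * f₂).natDegree ≤ 2 * k + 1 := by
    refine natDegree_mul_le.trans ?_
    omega
  have e2 : (f₁ * derivative f₂).natDegree ≤ 2 * k + 1 := by
    refine natDegree_mul_le.trans ?_
    omega
  rw [natDegree_le_iff_coeff_eq_zero]
  intro N hN
  rw [coeff_sub]
  rcases Nat.lt_or_ge (2 * k + 1) N with h | h
  · rw [coeff_eq_zero_of_natDegree_lt (e1.trans_lt h), coeff_eq_zero_of_natDegree_lt (e2.trans_lt h),
      sub_zero]
  · have hN' : N = k + (k + 1) := by omega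
    have hN'' : N = (k + 1) + k := by omega
    have c1 : (derivative f₁ * f₂).coeff N = (derivative f₁).coeff k * f₂.coeff (k + 1) := by
      rw [hN']
      exact coeff_mul_add_eq_of_natDegree_le d1 h2
    have c2 : (f₁ * derivative f₂).coeff N = f₁.coeff (k + 1) * (derivative f₂).coeff k := by
      rw [hN'']
      exact coeff_mul_add_eq_of_natDegree_le h1 d2
    rw [c1, c2, coeff_derivative, coeff_derivative]
    ring

theorem ram_le (f₁ f₂ : K[X]) (hc : IsCoprime f₁ f₂)
    (hD : derivative f₁ * f₂ - f₁ * derivative f₂ ≠ 0) (a : K) :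
    ram f₁ f₂ a - 1 ≤ (derivative f₁ * f₂ - f₁ * derivative f₂).rootMultiplicity a := by
  rw [le_rootMultiplicity_iff hD]
  have h1 : (X - C a) ^ (ram f₁ f₂ a) ∣ C (f₂.eval a) * f₁ - C (f₁.eval a) * f₂ :=
    pow_rootMultiplicity_dvd _ _
  have h2 : (X - C a) ^ (ram f₁ f₂ a - 1) ∣
      derivative (C (f₂.eval a) * f₁ - C (f₁.eval a) * f₂) :=
    pow_sub_one_dvd_derivative_of_pow_dvd h1
  have h3 : (X - C a) ^ (ram f₁ f₂ a - 1) ∣ C (f₂.eval a) * f₁ - C (f₁.eval a) * f₂ :=
    (pow_dvd_pow _ (Nat.sub_le _ _)).trans h1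
  rw [derivative_sub, derivative_C_mul, derivative_C_mul] at h2
  have h4 : (X - C a) ^ (ram f₁ f₂ a - 1) ∣
      C (f₂.eval a) * (derivative f₁ * f₂ - f₁ * derivative f₂) := by
    have h5 := dvd_sub (h2.mul_right f₂) (h3.mul_right (derivative f₂))
    refine h5.trans (dvd_of_eq ?_)
    ring
  have h6 : (X - C a) ^ (ram f₁ f₂ a - 1) ∣
      C (f₁.eval a) * (derivative f₁ * f₂ - f₁ * derivative f₂) := by
    have h5 := dvd_sub (h2.mul_right f₁) (h3.mul_right (derivative f₁))
    refine h5.trans (dvd_of_eq ?_)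
    ring
  by_cases hz : f₂.eval a = 0
  · have hy : f₁.eval a ≠ 0 := by
      intro hy
      obtain ⟨u, v, huv⟩ := hc
      have h7 := congrArg (eval a) huv
      rw [eval_add, eval_mul, eval_mul, hz, hy, mul_zero, mul_zero, add_zero, eval_one] at h7
      exact zero_ne_one h7
    exact (isUnit_C.2 (IsUnit.mk0 _ hy)).dvd_mul_left.1 h6
  · exact (isUnit_C.2 (IsUnit.mk0 _ hz)).dvd_mul_left.1 h4

theorem sum_mult_le (D : K[X]) (A : Finset K) :
    ∑ a ∈ A, D.rootMultiplicity a ≤ D.natDegree := by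
  classical
  have h1 : ∑ a ∈ A, D.rootMultiplicity a = ∑ a ∈ A, D.roots.count a :=
    Finset.sum_congr rfl fun a _ => (count_roots D).symm
  rw [h1]
  have h2 : ∑ a ∈ A, D.roots.count a ≤ ∑ a ∈ D.roots.toFinset, D.roots.count a := by
    refine Finset.sum_le_sum_of_ne_zero fun a _ ha => ?_
    rw [Multiset.mem_toFinset]
    exact Multiset.count_ne_zero.1 ha
  refine h2.trans ?_
  rw [Multiset.toFinset_sum_count_eq]
  exact D.card_roots'

end UB2M

theorem specUB2 : SpecUB2 := by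
  intro K _ _ f₁ f₂ hc hn A
  obtain ⟨k, hk⟩ : ∃ k, max f₁.natDegree f₂.natDegree = k + 1 := ⟨_, (Nat.sub_add_cancel hn).symm⟩
  have hD := UB2M.wr_ne f₁ f₂ hc hn
  have h1 : f₁.natDegree ≤ k + 1 := hk ▸ le_max_left _ _
  have h2 : f₂.natDegree ≤ k + 1 := hk ▸ le_max_right _ _
  have h3 := UB2M.wr_deg f₁ f₂ k h1 h2
  have h4 : ∑ a ∈ A, (ram f₁ f₂ a - 1) ≤ _ :=
    (Finset.sum_le_sum fun a _ => UB2M.ram_le f₁ f₂ hc hD a).trans (UB2M.sum_mult_le _ A)
  rw [hk]
  omega

end Pool.Agent.Lib.MP387a85.IN
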