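import Pool.Agent.Lib.MP_387a85_ag.IN.Spec

/-!
# Module VTX: a form at a vertex of the coordinate triangle
-/

set_option autoImplicit false

namespace Pool.Agent.Lib.MP387a85.IN

open MvPolynomial

namespace VTXM

variable {K : Type} [Field K]

/-- the exponent at the vertex -/
noncomputable def E (k : Fin 3) (s : Fin 3 →₀ ℕ) : Fin 2 →₀ ℕ :=
  Finsupp.single 0 (s (k + 1)) + Finsupp.single 1 (s (k + 2))

theorem E_zero (k : Fin 3) (s : Fin 3 →₀ ℕ) : E k s 0 = s (k + 1) := by
  simp [E]

theorem E_one (k : Fin 3) (s : Fin 3 →₀ ℕ) : E k s 1 = s (k + 2) := by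
  simp [E]

theorem prod_eq (k : Fin 3) (s : Fin 3 →₀ ℕ) :
    ∏ i, (if i = k then (1 : MvPolynomial (Fin 2) K) else if i = k + 1 then X 0 + C 0
      else X 1 + C 0) ^ s i = X 0 ^ s (k + 1) * X 1 ^ s (k + 2) := by
  fin_cases k
  · rw [Fin.prod_univ_three]
    simp [map_zero]
  · rw [Fin.prod_univ_three]
    simp [map_zero]
    rw [mul_comm]
  · rw [Fin.prod_univ_three]
    simp [map_zero]

theorem loc_eq (f : MvPolynomial (Fin 3) K) (k : Fin 3) :
    loc f k 0 0 = ∑ s ∈ f.support, monomial (E k s) (coeff s f) := by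
  unfold loc
  rw [aeval_def, eval₂_eq']
  refine Finset.sum_congr rfl fun s _ => ?_
  rw [prod_eq, E, algebraMap_eq, monomial_eq]
  congr 1
  rw [Finsupp.prod_add_index' (fun _ => pow_zero _) (fun _ _ _ => pow_add _ _ _)]
  simp

theorem coeff_loc (f : MvPolynomial (Fin 3) K) (k : Fin 3) (e : Fin 2 →₀ ℕ) :
    coeff e (loc f k 0 0) = ∑ s ∈ f.support, if E k s = e then coeff s f else 0 := by
  rw [loc_eq, coeff_sum]
  refine Finset.sum_congr rfl fun s _ => ?_
  rw [coeff_monomial]

theorem E_inj {f : MvPolynomial (Fin 3) K} {d : ℕ} (hf : f.IsHomogeneous d) (k : Fin 3)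
    {s s' : Fin 3 →₀ ℕ} (hs : s ∈ f.support) (hs' : s' ∈ f.support) (h : E k s = E k s') :
    s = s' := by
  have hdeg : ∀ u ∈ f.support, u 0 + u 1 + u 2 = d := by
    intro u hu
    have h1 := hf (mem_support_iff.1 hu)
    have h2 : Finsupp.degree u = d := by
      rw [Finsupp.degree_eq_weight_one]
      exact h1
    rw [Finsupp.degree_eq_sum, Fin.sum_univ_three] at h2
    exact h2
  have h0 : s (k + 1) = s' (k + 1) := by
    rw [← E_zero, ← E_zero, h]
  have h1 : s (k + 2) = s' (k + 2) := by
    rw [← E_one, ← E_one, h]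
  have h2 := hdeg s hs
  have h3 := hdeg s' hs'
  fin_cases k
  · change s 1 = s' 1 at h0
    change s 2 = s' 2 at h1
    ext i
    fin_cases i
    · change s 0 = s' 0
      omega
    · exact h0
    · exact h1
  · change s 2 = s' 2 at h0
    change s 0 = s' 0 at h1
    ext i
    fin_cases i
    · exact h1
    · change s 1 = s' 1
      omega
    · exact h0
  · change s 0 = s' 0 at h0
    change s 1 = s' 1 at h1
    ext i
    fin_cases i
    · exact h0
    · exact h1
    · change s 2 = s' 2
      omega

end VTXM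

open VTXM in
theorem specVTX : SpecVTX := by
  classical
  intro K _ f d hf k
  constructor
  · have hsub : (loc f k 0 0).support ⊆ f.support.image (E k) := by
      intro e he
      rw [mem_support_iff, coeff_loc] at he
      obtain ⟨s, hs, hne⟩ := Finset.exists_ne_zero_of_sum_ne_zero he
      rw [Finset.mem_image]
      refine ⟨s, hs, ?_⟩
      by_contra hc
      exact hne (if_neg hc)
    exact (Finset.card_le_card hsub).trans Finset.card_image_le
  · intro s hs
    refine ⟨E k s, ?_, E_zero k s, E_one k s⟩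
    rw [mem_support_iff, coeff_loc, Finset.sum_eq_single s]
    · rw [if_pos rfl]
      exact mem_support_iff.1 hs
    · intro s' hs' hne
      exact if_neg fun h => hne (E_inj hf k hs' hs h)
    · intro h
      exact absurd hs h

end Pool.Agent.Lib.MP387a85.IN
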