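import Pool.Agent.Lib.MP_387a85_ag.IN.Spec2

/-!
# Module ZR2: a polynomial which does not vanish at the origin
-/

set_option autoImplicit false

namespace Pool.Agent.Lib.MP387a85.IN

open MvPolynomial

namespace ZR2M

variable {K : Type} [Field K]

theorem coeff_aeval (f : Fin 2 → MvPolynomial (Fin 2) K) (h : ∀ i, constantCoeff (f i) = 0)
    (g : MvPolynomial (Fin 2) K) : coeff 0 (aeval f g) = coeff 0 g := by
  have e : (constantCoeff : MvPolynomial (Fin 2) K →+* K).comp
      (aeval f : MvPolynomial (Fin 2) K →ₐ[K] MvPolynomial (Fin 2) K).toRingHom =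
      constantCoeff := by
    apply MvPolynomial.ringHom_ext
    · intro r
      simp
    · intro i
      simp [h i]
  have e2 := congrArg (fun φ : MvPolynomial (Fin 2) K →+* K => φ g) e
  exact e2

theorem mult_zero (g : MvPolynomial (Fin 2) K) (h : coeff 0 g ≠ 0) : mult g = 0 := by
  unfold mult
  have h1 : (0 : ℕ) ∈ {n : ℕ | ∃ a ∈ g.support, a 0 + a 1 = n} :=
    ⟨0, MvPolynomial.mem_support_iff.2 h, by simp⟩
  exact Nat.le_zero.1 (Nat.sInf_le h1)

theorem strict_coeff (g : MvPolynomial (Fin 2) K) (h : coeff 0 g ≠ 0) (δ : Option K) :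
    coeff 0 (strict g δ) ≠ 0 := by
  have hm := mult_zero g h
  cases δ with
  | none =>
    rw [strict, hm, coeff_divMonomial, Finsupp.single_zero, add_zero, coeff_aeval]
    · exact h
    · intro i
      fin_cases i <;> simp
  | some c =>
    rw [strict, hm, coeff_divMonomial, Finsupp.single_zero, add_zero, coeff_aeval]
    · exact h
    · intro i
      fin_cases i <;> simp

end ZR2M

theorem specZR2 : SpecZR2 := by
  intro K _ g hg w
  induction w generalizing g with
  | nil => exact ZR2M.mult_zero g hg
  | cons δ w ih => exact ih _ (ZR2M.strict_coeff g hg δ)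

end Pool.Agent.Lib.MP387a85.IN
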